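import Mathlib

/-!
# Polynomially bounded functions
-/

set_option autoImplicit false

namespace Pool.Agent.R351.GD

/-- polynomially bounded functions -/
def PB (f : ℕ → ℕ) : Prop := ∃ c : ℕ, ∀ δ : ℕ, f δ ≤ (δ + 2) ^ c

theorem PB.of_le {f g : ℕ → ℕ} (hg : PB g) (h : ∀ δ, f δ ≤ g δ) : PB f := by
  obtain ⟨c, hc⟩ := hg
  exact ⟨c, fun δ => (h δ).trans (hc δ)⟩

theorem PB.const (a : ℕ) : PB fun _ => a := by
  refine ⟨a, fun δ => ?_⟩
  calc a ≤ 2 ^ a := (Nat.lt_two_pow_self).le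
    _ ≤ (δ + 2) ^ a := Nat.pow_le_pow_left (by omega) _

theorem PB.id : PB fun δ => δ := ⟨1, fun δ => by rw [pow_one]; exact Nat.le_add_right _ _⟩

theorem PB.add {f g : ℕ → ℕ} (hf : PB f) (hg : PB g) : PB fun δ => f δ + g δ := by
  obtain ⟨a, ha⟩ := hf
  obtain ⟨b, hb⟩ := hg
  refine ⟨a + b + 1, fun δ => ?_⟩
  have h1 : (δ + 2) ^ a ≤ (δ + 2) ^ (a + b) := Nat.pow_le_pow_right (by omega) (by omega)
  have h2 : (δ + 2) ^ b ≤ (δ + 2) ^ (a + b) := Nat.pow_le_pow_right (by omega) (by omega)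
  calc f δ + g δ ≤ (δ + 2) ^ (a + b) + (δ + 2) ^ (a + b) :=
        Nat.add_le_add ((ha δ).trans h1) ((hb δ).trans h2)
    _ = (δ + 2) ^ (a + b) * 2 := by ring
    _ ≤ (δ + 2) ^ (a + b) * (δ + 2) := Nat.mul_le_mul_left _ (by omega)
    _ = _ := by rw [pow_succ]

theorem PB.mul {f g : ℕ → ℕ} (hf : PB f) (hg : PB g) : PB fun δ => f δ * g δ := by
  obtain ⟨a, ha⟩ := hf
  obtain ⟨b, hb⟩ := hg
  refine ⟨a + b, fun δ => ?_⟩
  rw [pow_add]
  exact Nat.mul_le_mul (ha δ) (hb δ)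

theorem PB.pow {f : ℕ → ℕ} (hf : PB f) (k : ℕ) : PB fun δ => f δ ^ k := by
  obtain ⟨a, ha⟩ := hf
  refine ⟨a * k, fun δ => ?_⟩
  rw [pow_mul]
  exact Nat.pow_le_pow_left (ha δ) _

theorem PB.comp {f g : ℕ → ℕ} (hf : PB f) (hg : PB g) : PB fun δ => f (g δ) := by
  obtain ⟨a, ha⟩ := hf
  obtain ⟨b, hb⟩ := hg
  refine ⟨(b + 2) * a, fun δ => ?_⟩
  rw [pow_mul]
  refine (ha _).trans (Nat.pow_le_pow_left ?_ _)
  have h1 : 1 ≤ (δ + 2) ^ b := Nat.one_le_pow _ _ (by omega)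
  have h2 : 2 * 2 ≤ (δ + 2) * (δ + 2) := Nat.mul_le_mul (by omega) (by omega)
  have h3 := Nat.mul_le_mul_left ((δ + 2) ^ b) h2
  have h4 : (δ + 2) ^ (b + 2) = (δ + 2) ^ b * ((δ + 2) * (δ + 2)) := by ring
  have h5 := hb δ
  rw [h4]
  omega

theorem PB.sum {ι : Type*} (s : Finset ι) {f : ι → ℕ → ℕ} (h : ∀ i ∈ s, PB (f i)) :
    PB fun δ => ∑ i ∈ s, f i δ := by
  classical
  induction s using Finset.induction_on with
  | empty => simpa using PB.const 0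
  | insert a s ha ih =>
    have h1 := (h a (Finset.mem_insert_self _ _)).add (ih fun i hi => h i (Finset.mem_insert_of_mem hi))
    refine h1.of_le fun _ => ?_
    rw [Finset.sum_insert ha]

theorem PB.max {f g : ℕ → ℕ} (hf : PB f) (hg : PB g) : PB fun δ => Max.max (f δ) (g δ) :=
  (hf.add hg).of_le fun δ => max_le (Nat.le_add_right _ _) (Nat.le_add_left _ _)

end Pool.Agent.R351.GD
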