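import Mathlib
import Pool.Agent.Y113.P.Prod
import Pool.Agent.Y535.LG.Mon

/-!
# Products of G-systems and monomials in a G-system, with constants which are exponential in the degree
-/

set_option autoImplicit false

open PowerSeries Finset.HasAntidiagonal

namespace Pool.Agent.R351.GD

open Pool.Agent.Y113 Pool.Agent.Y916 Pool.Agent.Y535.LG

variable {ι κ : Type} [Fintype ι] [Fintype κ] {q : ℕ} {C D : ℝ} {T : Polynomial ℤ} {y : ι → ℚ⟦X⟧}
  {w : κ → ℚ⟦X⟧}

/-- the product of two G-systems with the same `T` -/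
theorem prod_asym (hy : GSys q C T y) (hw : GSys q D T w) :
    GSys q (2 ^ (q + 1) * (C * D)) T (fun p : ι × κ => y p.1 * w p.2) := by
  have hC := hy.one_le
  have hD := hw.one_le
  have hC0 : 0 < C := zero_lt_one.trans_le hC
  have hD0 : 0 < D := zero_lt_one.trans_le hD
  have h2 : (1 : ℝ) ≤ 2 ^ (q + 1) := one_le_pow₀ (by norm_num)
  have hCD1 : 1 ≤ C * D := one_le_mul_of_one_le_of_one_le hC hD
  have hCD : C * D ≤ 2 ^ (q + 1) * (C * D) := le_mul_of_one_le_left (by positivity) h2
  have hCC : C ≤ 2 ^ (q + 1) * (C * D) := (le_mul_of_one_le_right hC0.le hD).trans hCD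
  have hC2 : ∀ m : ℕ, C ^ (m + 1) * D ^ (m + 1) ≤ (2 ^ (q + 1) * (C * D)) ^ (m + 1) := by
    intro m
    rw [← mul_pow]
    exact pow_le_pow_left₀ (by positivity) hCD _
  refine ⟨hCD1.trans hCD, hy.degT, fun l => (hy.sizeT l).trans hCC, ?_, ?_, ?_⟩
  · rintro ⟨i, j⟩ m
    show |((coeff m (y i * w j) : ℚ) : ℝ)| ≤ _
    rw [coeff_mul]
    push_cast
    refine (Finset.abs_sum_le_sum_abs _ _).trans ?_
    refine (Finset.sum_le_card_nsmul _ _ (C ^ (m + 1) * D ^ (m + 1)) fun p hp => ?_).trans ?_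
    · rw [Finset.HasAntidiagonal.mem_antidiagonal] at hp
      rw [abs_mul]
      refine mul_le_mul ((hy.size i _).trans (pow_le_pow_right₀ hC (by omega)))
        ((hw.size j _).trans (pow_le_pow_right₀ hD (by omega))) (abs_nonneg _) (by positivity)
    · rw [nsmul_eq_mul, Finset.Nat.card_antidiagonal]
      push_cast
      calc ((m : ℝ) + 1) * (C ^ (m + 1) * D ^ (m + 1)) ≤ (2 ^ (q + 1)) ^ (m + 1) *
            (C ^ (m + 1) * D ^ (m + 1)) := by
            refine mul_le_mul_of_nonneg_right ?_ (by positivity)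
            refine (succ_le_two_pow m).trans ?_
            rw [← pow_mul]
            exact pow_le_pow_right₀ (by norm_num) (by nlinarith)
        _ = _ := by rw [mul_pow, mul_pow]
  · intro m
    obtain ⟨d, hd0, hd, hd'⟩ := hy.den m
    obtain ⟨e, he0, he, he'⟩ := hw.den m
    refine ⟨d * e, Nat.mul_pos hd0 he0, ?_, ?_⟩
    · push_cast
      exact (mul_le_mul hd he (by positivity) (by positivity)).trans (hC2 m)
    · rintro ⟨i, i'⟩ j hj
      show ∃ a : ℤ, ((d * e : ℕ) : ℚ) * coeff j (y i * w i') = a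
      choose! a ha using hd' i
      choose! b hb using he' i'
      refine ⟨∑ p ∈ antidiagonal j, a p.1 * b p.2, ?_⟩
      rw [coeff_mul, Finset.mul_sum]
      push_cast
      refine Finset.sum_congr rfl fun p hp => ?_
      rw [Finset.HasAntidiagonal.mem_antidiagonal] at hp
      rw [← ha p.1 (by omega), ← hb p.2 (by omega)]
      ring
  · intro k
    obtain ⟨g, hg0, hg, hg'⟩ := hy.der k
    obtain ⟨g', hg0', hgb', hg''⟩ := hw.der k
    refine ⟨g * g', Nat.mul_pos hg0 hg0', ?_, ?_⟩
    · push_cast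
      exact (mul_le_mul hg hgb' (by positivity) (by positivity)).trans (hC2 k)
    · intro s hs
      choose! G h1 h2' h3 using hg'
      choose! G' h1' h2'' h3' using hg''
      refine ⟨fun i j => ∑ p ∈ antidiagonal s, G p.1 i.1 j.1 * G' p.2 i.2 j.2, ?_, ?_, ?_⟩
      · intro i j
        refine Polynomial.natDegree_sum_le_of_forall_le _ _ fun p hp => ?_
        rw [Finset.HasAntidiagonal.mem_antidiagonal] at hp
        refine Polynomial.natDegree_mul_le.trans ?_
        refine (add_le_add (h1 p.1 (by omega) i.1 j.1) (h1' p.2 (by omega) i.2 j.2)).trans ?_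
        rw [← Nat.mul_add, hp]
      · intro i j l
        have hB : ∀ p ∈ antidiagonal s, Bd (q * s) ((q * k + 1) * (C ^ (k + 1) * D ^ (k + 1)))
            (G p.1 i.1 j.1 * G' p.2 i.2 j.2) := by
          intro p hp
          rw [Finset.HasAntidiagonal.mem_antidiagonal] at hp
          have e1 : Bd (q * p.1) (C ^ (k + 1)) (G p.1 i.1 j.1) := ⟨h1 p.1 (by omega) i.1 j.1, h2' p.1 (by omega) i.1 j.1⟩
          have e2 : Bd (q * p.2) (D ^ (k + 1)) (G' p.2 i.2 j.2) :=
            ⟨h1' p.2 (by omega) i.2 j.2, h2'' p.2 (by omega) i.2 j.2⟩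
          refine (e1.mul e2).mono (le_of_eq (by rw [← hp]; ring)) ?_
          refine mul_le_mul_of_nonneg_right ?_ (by positivity)
          have : (p.1 : ℝ) ≤ k := by exact_mod_cast (by omega : p.1 ≤ k)
          push_cast
          have hq0 : (0 : ℝ) ≤ q := by positivity
          nlinarith
        have := (Bd.sum _ hB).2 l
        refine this.trans ?_
        rw [Finset.Nat.card_antidiagonal]
        push_cast
        have e3 : (s : ℝ) + 1 ≤ 2 ^ (k + 1) := by
          refine (succ_le_two_pow s).trans (pow_le_pow_right₀ (by norm_num) (by omega))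
        have e4 : (q : ℝ) * k + 1 ≤ (2 ^ q) ^ (k + 1) := by
          have := succ_le_two_pow (q * k)
          push_cast at this
          refine this.trans ?_
          rw [← pow_mul]
          exact pow_le_pow_right₀ (by norm_num) (by nlinarith)
        calc ((s : ℝ) + 1) * ((q * k + 1) * (C ^ (k + 1) * D ^ (k + 1)))
            ≤ 2 ^ (k + 1) * ((2 ^ q) ^ (k + 1) * (C ^ (k + 1) * D ^ (k + 1))) := by
              refine mul_le_mul e3 ?_ (by positivity) (by positivity)
              exact mul_le_mul_of_nonneg_right e4 (by positivity)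
          _ = _ := by
              rw [← mul_pow, ← mul_pow, ← mul_pow]
              congr 1
              ring
      · rintro ⟨i, i'⟩
        show ((g * g' : ℕ) : ℚ⟦X⟧) * (ps T ^ s * hd s (y i * w i')) = _
        rw [hd_mul, Finset.mul_sum, Finset.mul_sum]
        have e1 : ∀ p ∈ antidiagonal s, ((g * g' : ℕ) : ℚ⟦X⟧) * (ps T ^ s * (hd p.1 (y i) * hd p.2 (w i'))) =
            ∑ j : ι, ∑ j' : κ, ps (G p.1 i j * G' p.2 i' j') * (y j * w j') := by
          intro p hp
          rw [Finset.HasAntidiagonal.mem_antidiagonal] at hp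
          have e2 : ((g * g' : ℕ) : ℚ⟦X⟧) * (ps T ^ s * (hd p.1 (y i) * hd p.2 (w i'))) =
            ((g : ℚ⟦X⟧) * (ps T ^ p.1 * hd p.1 (y i))) * ((g' : ℚ⟦X⟧) * (ps T ^ p.2 * hd p.2 (w i'))) := by
            rw [← hp, pow_add]
            push_cast
            ring
          rw [e2, h3 p.1 (by omega) i, h3' p.2 (by omega) i', Finset.sum_mul_sum]
          refine Finset.sum_congr rfl fun j _ => Finset.sum_congr rfl fun j' _ => ?_
          rw [ps_mul]
          ring
        rw [Finset.sum_congr rfl e1, Fintype.sum_prod_type, Finset.sum_comm]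
        refine Finset.sum_congr rfl fun j _ => ?_
        rw [Finset.sum_comm]
        refine Finset.sum_congr rfl fun j' _ => ?_
        show _ = ps (∑ p ∈ antidiagonal s, G p.1 i j * G' p.2 i' j') * (y j * w j')
        rw [ps_sum, Finset.sum_mul]

/-- a family with repetitions -/
theorem quot (hy : GSys q C T y) (fM : κ → ι) (eM : ι → κ) (hf : ∀ j, w j = y (fM j))
    (he : ∀ i, y i = w (eM i)) (N : ℝ) (hN1 : 1 ≤ N) (hN : (Fintype.card ι : ℝ) ≤ N) :
    GSys q (N * C) T w := by
  classical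
  have hC := hy.one_le
  have hC0 : 0 < C := zero_lt_one.trans_le hC
  have hCC : C ≤ N * C := le_mul_of_one_le_left hC0.le hN1
  have hC2 : ∀ m : ℕ, C ^ (m + 1) ≤ (N * C) ^ (m + 1) := fun m =>
    pow_le_pow_left₀ hC0.le hCC _
  refine ⟨hC.trans hCC, hy.degT, fun l => (hy.sizeT l).trans hCC, ?_, ?_, ?_⟩
  · intro j m
    rw [hf j]
    exact (hy.size _ m).trans (hC2 m)
  · intro m
    obtain ⟨d, hd0, hd, hd'⟩ := hy.den m
    refine ⟨d, hd0, hd.trans (hC2 m), fun j l hl => ?_⟩
    rw [hf j]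
    exact hd' _ l hl
  · intro k
    obtain ⟨g, hg0, hg, hg'⟩ := hy.der k
    refine ⟨g, hg0, hg.trans (hC2 k), fun s hs => ?_⟩
    obtain ⟨G, h1, h2, h3⟩ := hg' s hs
    have hB : ∀ j j', Bd (q * s) ((Finset.univ.filter fun i => eM i = j').card * C ^ (k + 1))
        (∑ i ∈ Finset.univ.filter (fun i => eM i = j'), G (fM j) i) :=
      fun j j' => Bd.sum _ fun i _ => ⟨h1 _ i, h2 _ i⟩
    refine ⟨fun j j' => ∑ i ∈ Finset.univ.filter (fun i => eM i = j'), G (fM j) i,
      fun j j' => (hB j j').1, fun j j' l => ((hB j j').2 l).trans ?_, fun j => ?_⟩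
    · have e1 : (((Finset.univ : Finset ι).filter fun i => eM i = j').card : ℝ) ≤ N := by
        refine le_trans ?_ hN
        exact_mod_cast Finset.card_le_univ _
      rw [mul_pow]
      exact mul_le_mul (e1.trans (le_self_pow₀ hN1 (by omega))) le_rfl (by positivity) (by positivity)
    · rw [hf j, h3]
      simp only [ps_sum, Finset.sum_mul]
      have e2 : ∀ j', ∑ i ∈ Finset.univ.filter (fun i => eM i = j'), ps (G (fM j) i) * w j' =
          ∑ i ∈ Finset.univ.filter (fun i => eM i = j'), ps (G (fM j) i) * y i := by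
        intro j'
        refine Finset.sum_congr rfl fun i hi => ?_
        rw [he i, (Finset.mem_filter.1 hi).2]
      rw [Finset.sum_congr rfl fun j' _ => e2 j']
      exact (Finset.sum_fiberwise Finset.univ eM fun i => ps (G (fM j) i) * y i).symm

/-- words in a G-system -/
theorem words (n : ℕ) {y : Option (Fin n) → ℚ⟦X⟧} (h : GSys q C T y) (Δ : ℕ) :
    GSys q ((2 ^ (q + 1) * C) ^ Δ * C) T (fun f : Fin Δ → Option (Fin n) => ∏ i, y (f i)) := by
  induction Δ with
  | zero =>
    have h1 := GSys.const (ι := Fin 0 → Option (Fin n)) h.one_le h.degT h.sizeT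
    simpa using h1
  | succ Δ ih =>
    have h3 := prod_asym h ih
    have h4 := h3.reindex (Fin.consEquiv fun _ => Option (Fin n)).symm
    have h5 : (fun f : Fin (Δ + 1) → Option (Fin n) => ∏ i, y (f i)) = fun j =>
        y ((Fin.consEquiv fun _ => Option (Fin n)).symm j).1 *
          ∏ i, y (((Fin.consEquiv fun _ => Option (Fin n)).symm j).2 i) := by
      funext f
      rw [Fin.prod_univ_succ]
      rfl
    rw [h5]
    refine h4.mono le_rfl (le_of_eq ?_)
    rw [pow_succ]
    ring

/-- monomials in a G-system -/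
theorem mon_exp (q n Δ : ℕ) {C : ℝ} {T : Polynomial ℤ} {y : Fin n → ℚ⟦X⟧}
    (h : GSys q C T (fun i : Option (Fin n) => i.elim (1 : ℚ⟦X⟧) y)) :
    GSys q ((2 * C) ^ ((q + n + 3) * (Δ + 1))) T (mo y Δ) := by
  have hC := h.one_le
  have hC0 : 0 < C := zero_lt_one.trans_le hC
  have h1 := words n h Δ
  have hM : ∀ e : Mn n Δ, ∃ f : Fin Δ → Option (Fin n),
      mo y Δ e = ∏ i, (f i).elim (1 : ℚ⟦X⟧) y := by
    intro e
    obtain ⟨f, hf⟩ := exists_word' n Δ (fun i => (e.1 i : ℕ)) e.2
    exact ⟨f, (hf y).symm⟩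
  choose fM hfM using hM
  have hM' : ∀ f : Fin Δ → Option (Fin n), ∃ e : Mn n Δ,
      ∏ i, (f i).elim (1 : ℚ⟦X⟧) y = mo y Δ e := by
    intro f
    obtain ⟨e, he, he'⟩ := word_exp' n Δ f
    have hi : ∀ i, e i < Δ + 1 := fun i => by
      have := Finset.single_le_sum (f := e) (fun _ _ => Nat.zero_le _) (Finset.mem_univ i)
      omega
    exact ⟨⟨fun i => ⟨e i, hi i⟩, he⟩, he' y⟩
  choose eM heM using hM'
  have h2 := quot h1 fM eM hfM heM (2 ^ ((n + 1) * Δ)) (one_le_pow₀ (by norm_num)) (by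
    rw [Fintype.card_fun, Fintype.card_option, Fintype.card_fin, Fintype.card_fin]
    push_cast
    rw [pow_mul]
    refine pow_le_pow_left₀ (by positivity) ?_ _
    have := succ_le_two_pow n
    refine this.trans ?_
    exact pow_le_pow_right₀ (by norm_num) (by omega))
  refine h2.mono le_rfl ?_
  have h22 : (2 : ℝ) ≤ 2 * C := by linarith
  have h21 : (1 : ℝ) ≤ 2 * C := by linarith
  have hCC : C ≤ 2 * C := by linarith
  calc (2 : ℝ) ^ ((n + 1) * Δ) * ((2 ^ (q + 1) * C) ^ Δ * C)
      ≤ (2 * C) ^ ((n + 1) * Δ) * (((2 * C) ^ (q + 1) * (2 * C)) ^ Δ * (2 * C)) := by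
        gcongr
    _ = (2 * C) ^ ((n + 1) * Δ + ((q + 2) * Δ + 1)) := by
        rw [← pow_succ, ← pow_mul, pow_add, pow_succ (2 * C) ((q + 2) * Δ)]
    _ ≤ _ := pow_le_pow_right₀ h21 (by nlinarith)

end Pool.Agent.R351.GD
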