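import Mathlib
import Pool.Agent.Y419.AL.Valc
import Pool.Agent.R351.GD.GK
import Pool.Agent.R351.GD.Prod

/-!
# No polynomial relation between the values at an algebraic point: polynomial dependence on the degree
-/

set_option autoImplicit false

open PowerSeries

namespace Pool.Agent.R351.GD

open Pool.Agent.Y113 Pool.Agent.Y916 Pool.Agent.Y916.Al Pool.Agent.Y535.LG Pool.Agent.Y419.AL

theorem aux_grow (c n Δ : ℕ) :
    (c * (4 * n * (c * Δ + n + 2) ^ 2 + 1) * Δ + 1) ^ n < 2 ^ (4 * n * (c * Δ + n + 2) ^ 2 + 1) := by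
  set L := c * Δ + n + 2 with hL
  set K := 4 * n * L ^ 2 + 1 with hK
  have h1 : c * Δ + 1 ≤ 2 ^ (c * Δ) := Nat.lt_two_pow_self
  have h2 : K + 1 ≤ 2 ^ (2 + n + 2 * L) := by
    have h3 : n + 1 ≤ 2 ^ n := Nat.lt_two_pow_self
    have h4 : L + 1 ≤ 2 ^ L := Nat.lt_two_pow_self
    have h5 : (L + 1) ^ 2 ≤ (2 ^ L) ^ 2 := Nat.pow_le_pow_left h4 2
    rw [← pow_mul, mul_comm L 2] at h5
    calc K + 1 ≤ 4 * ((n + 1) * (L + 1) ^ 2) := by rw [hK]; nlinarith [Nat.zero_le n, Nat.zero_le L]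
      _ ≤ 2 ^ 2 * (2 ^ n * 2 ^ (2 * L)) := Nat.mul_le_mul (by norm_num) (Nat.mul_le_mul h3 h5)
      _ = _ := by rw [pow_add, pow_add]; ring
  have h3 : c * K * Δ + 1 ≤ 2 ^ (c * Δ + (2 + n + 2 * L)) := by
    rw [pow_add]
    refine le_trans ?_ (Nat.mul_le_mul h1 h2)
    nlinarith [Nat.zero_le (c * Δ), Nat.zero_le K]
  calc (c * K * Δ + 1) ^ n ≤ (2 ^ (c * Δ + (2 + n + 2 * L))) ^ n := Nat.pow_le_pow_left h3 n
    _ = 2 ^ ((c * Δ + (2 + n + 2 * L)) * n) := by rw [← pow_mul]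
    _ < 2 ^ K := by
        apply Nat.pow_lt_pow_right (by norm_num)
        have h4 : c * Δ + (2 + n + 2 * L) = 3 * L := by rw [hL]; ring
        have hL2 : 2 ≤ L := by omega
        have h5 : 3 * L ≤ 4 * L ^ 2 := by nlinarith
        rw [h4, hK]
        have h6 := Nat.mul_le_mul_right n h5
        have h7 : 4 * L ^ 2 * n = 4 * n * L ^ 2 := by ring
        omega

theorem exists_D' (n Δ c : ℕ) : ∃ D : ℕ, D ≤ c * (4 * n * (c * Δ + n + 2) ^ 2 + 1) * Δ + Δ ∧
    c * (Fintype.card (Mn n (D + Δ)) - Fintype.card (Mn n D)) ≤ Fintype.card (Mn n (D + Δ)) := by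
  by_contra hcon
  push Not at hcon
  set f : ℕ → ℕ := fun D => Fintype.card (Mn n D) with hf
  set K := 4 * n * (c * Δ + n + 2) ^ 2 + 1 with hK
  have hcon' : ∀ D, D ≤ c * K * Δ + Δ → f (D + Δ) < c * (f (D + Δ) - f D) := hcon
  have hlt : ∀ D, D ≤ c * K * Δ + Δ → f D < f (D + Δ) := by
    intro D hD
    by_contra h
    push Not at h
    have h1 := hcon' D hD
    rw [Nat.sub_eq_zero_of_le h] at h1
    omega
  have hR : ∀ D, D ≤ c * K * Δ + Δ → ((f (D + Δ) : ℕ) : ℝ) < c * ((f (D + Δ) : ℝ) - f D) := by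
    intro D hD
    have h1 := hcon' D hD
    have h2 : (((f (D + Δ) : ℕ) : ℝ)) < ((c * (f (D + Δ) - f D) : ℕ) : ℝ) := by exact_mod_cast h1
    rw [Nat.cast_mul, Nat.cast_sub (hlt D hD).le] at h2
    exact h2
  have hpos : ∀ D, (1 : ℝ) ≤ f D := fun D => by exact_mod_cast one_le_card n D
  have hc : (1 : ℝ) < c := by
    by_contra h
    push Not at h
    have h1 := hR 0 (Nat.zero_le _)
    have h2 := hpos 0
    have h3 := hpos (0 + Δ)
    have h4 : ((f 0 : ℕ) : ℝ) < f (0 + Δ) := by exact_mod_cast hlt 0 (Nat.zero_le _)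
    nlinarith
  set r : ℝ := c / (c - 1) with hr
  have hc1 : (0 : ℝ) < c - 1 := by linarith
  have hr1 : 1 < r := by
    rw [hr, lt_div_iff₀ hc1]
    linarith
  have hstep : ∀ D, D ≤ c * K * Δ + Δ → r * f D ≤ f (D + Δ) := by
    intro D hD
    rw [hr, div_mul_eq_mul_div, div_le_iff₀ hc1]
    have := hR D hD
    nlinarith
  have hgrow : ∀ j : ℕ, j ≤ c * K → r ^ j ≤ f (j * Δ) := by
    intro j
    induction j with
    | zero => intro _; simpa using hpos 0
    | succ j ih =>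
      intro hj
      calc r ^ (j + 1) = r * r ^ j := by ring
        _ ≤ r * f (j * Δ) := mul_le_mul_of_nonneg_left (ih (by omega)) (by linarith)
        _ ≤ f (j * Δ + Δ) := hstep _ (by
            have := Nat.mul_le_mul_right Δ (show j ≤ c * K by omega)
            omega)
        _ = f ((j + 1) * Δ) := by rw [add_mul, one_mul]
  have h1 := hgrow (c * K) le_rfl
  have h2 : (2 : ℝ) ≤ r ^ c := by
    have h3 : r = 1 + 1 / (c - 1) := by rw [hr]; field_simp; ring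
    have h4 := one_add_mul_le_pow (show (-2 : ℝ) ≤ 1 / (c - 1) by
      have : (0 : ℝ) ≤ 1 / (c - 1) := by positivity
      linarith) c
    rw [← h3] at h4
    refine le_trans ?_ h4
    have h5 : (1 : ℝ) ≤ c * (1 / (c - 1)) := by
      rw [mul_one_div, le_div_iff₀ hc1]
      linarith
    linarith
  have h3 : (2 : ℝ) ^ K ≤ r ^ (c * K) := by
    rw [pow_mul]
    exact pow_le_pow_left₀ (by norm_num) h2 _
  have h4 : (f (c * K * Δ) : ℝ) ≤ ((c * K * Δ + 1 : ℕ) : ℝ) ^ n := by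
    exact_mod_cast card_le n (c * K * Δ)
  have h5 : (((c * K * Δ + 1 : ℕ) : ℝ)) ^ n < 2 ^ K := by exact_mod_cast aux_grow c n Δ
  linarith

theorem valc_exp (n m A : ℕ) : ∃ E : ℕ → ℕ, PB E ∧ ∀ (Δ H : ℕ) (T : Polynomial ℤ) (K : IntermediateField ℚ ℂ)
    (x : K) (X : ℝ), FiniteDimensional ℚ K → Module.finrank ℚ K ≤ m → x ≠ 0 → Pt K x X →
    ‖(x : ℂ)‖ * ((H : ℝ) + 2) ^ E Δ ≤ 1 → X * ‖(x : ℂ)‖ ^ A ≤ 1 → T.coeff 0 = 1 → T.natDegree = n →
    Squarefree (T.map (Int.castRingHom ℚ)) → (∀ l, |T.coeff l| ≤ H) →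
    ∀ P : MvPolynomial (Fin n) ℚ, P.totalDegree ≤ Δ →
    MvPolynomial.aeval (fun s : Fin n => evc (x : ℂ) (F T s)) P = 0 → P = 0 := by
  choose D hDΔ hD' using fun Δ : ℕ => exists_D' n Δ (2 * A * m)
  obtain ⟨E₀, hE₀⟩ := Pool.Agent.Y419.LB.base_holds n
  obtain ⟨E₂, hE₂p, hE₂'⟩ := gk_exp m A n
  have hDp : PB fun Δ => D Δ + Δ := by
    refine PB.add (PB.of_le ?_ hDΔ) PB.id
    have h1 := (((PB.const (2 * A * m)).mul PB.id).add (PB.const n)).add (PB.const 2)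
    have h2 := ((PB.const (4 * n)).mul (h1.pow 2)).add (PB.const 1)
    exact (((PB.const (2 * A * m)).mul h2).mul PB.id).add PB.id
  have hNp : PB fun Δ => Fintype.card (Mn n (D Δ + Δ)) :=
    PB.of_le ((hDp.add (PB.const 1)).pow n) fun Δ => card_le n (D Δ + Δ)
  refine ⟨fun Δ => ((E₀ + 1) * ((n + n + 3) * (D Δ + Δ + 1)) + 1) * E₂ (Fintype.card (Mn n (D Δ + Δ))) +
    (n + 1) + (E₀ + 1), ?_, fun Δ H T K x X hfd hrk hx0 hPt hxE hXA h0 hd hsq hH P hP hPv => ?_⟩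
  · exact ((((((PB.const (E₀ + 1)).mul ((PB.const (n + n + 3)).mul (hDp.add (PB.const 1)))).add
      (PB.const 1)).mul (hE₂p.comp hNp)).add (PB.const (n + 1))).add (PB.const (E₀ + 1)))
  have hD := hD' Δ
  set D := D Δ
  set E₁ := (n + n + 3) * (D + Δ + 1)
  have hE₁ : ∀ (C : ℝ) (T : Polynomial ℤ) (y : Fin n → ℚ⟦X⟧),
      GSys n C T (fun i : Option (Fin n) => i.elim (1 : ℚ⟦X⟧) y) → GSys n ((2 * C) ^ E₁) T (mo y (D + Δ)) :=
    fun C T y h => mon_exp n n (D + Δ) h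
  have hE₂ := hE₂' (Fintype.card (Mn n (D + Δ)))
  set E₂ := E₂ (Fintype.card (Mn n (D + Δ)))
  have hxE : ‖(x : ℂ)‖ * ((H : ℝ) + 2) ^ (((E₀ + 1) * E₁ + 1) * E₂ + (n + 1) + (E₀ + 1)) ≤ 1 := hxE
  have hB : (1 : ℝ) ≤ (H : ℝ) + 2 := one_le_base H
  have hH0 : (0 : ℝ) ≤ H := by positivity
  have hxR : ∀ a, a ≤ ((E₀ + 1) * E₁ + 1) * E₂ + (n + 1) + (E₀ + 1) →
      ‖(x : ℂ)‖ * ((H : ℝ) + 2) ^ a ≤ 1 := fun a ha =>
    (mul_le_mul_of_nonneg_left (pow_le_pow_right₀ hB ha) (norm_nonneg _)).trans hxE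
  have hxp : 0 < ‖(x : ℂ)‖ := by
    rw [norm_pos_iff]
    exact_mod_cast hx0
  have hG := hE₀ H T h0 hd.le hH
  have hG2 := (hE₁ _ T (fun s : Fin n => F T s) hG).mono le_rfl (pow_base H _ _)
  by_contra hPne
  set PK : MvPolynomial (Fin n) K := MvPolynomial.map (algebraMap ℚ K) P with hPK
  have hPK0 : PK ≠ 0 := by
    intro h1
    apply hPne
    apply MvPolynomial.map_injective (algebraMap ℚ K) (algebraMap ℚ K).injective
    rw [← hPK, h1, map_zero]
  have hPKd : PK.totalDegree ≤ Δ := by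
    refine le_trans ?_ hP
    unfold MvPolynomial.totalDegree
    exact Finset.sup_mono (MvPolynomial.support_map_subset _ _)
  have hPKv : MvPolynomial.aeval (fun s : Fin n => evc (x : ℂ) (F T s)) PK = 0 := by
    rw [hPK, MvPolynomial.aeval_map_algebraMap]
    exact hPv
  -- enumeration
  let eqv : Fin (Fintype.card (Mn n (D + Δ))) ≃ Mn n (D + Δ) := (Fintype.equivFin _).symm
  let eqv' : Fin (Fintype.card (Mn n D)) ≃ Mn n D := (Fintype.equivFin _).symm
  let e₀ : Mn n (D + Δ) := ⟨fun _ => 0, by simp⟩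
  -- convergence
  have hcv : ∀ s : Fin n, Cvc (x : ℂ) (F T s) := by
    intro s
    refine Cvc.of_bound (A := ((H : ℝ) + 2) ^ E₀) (B := ((H : ℝ) + 2) ^ E₀) (by positivity) ?_
      fun m => ?_
    · refine lt_of_lt_of_le ?_ (hxR (E₀ + 1) (by omega))
      rw [mul_comm]
      refine mul_lt_mul_of_pos_left ?_ hxp
      exact pow_lt_pow_right₀ (by linarith) (by omega)
    · have := hG.size (some s) m
      rw [pow_succ'] at this
      rw [Complex.norm_ratCast]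
      exact this
  have hmo : ∀ e : Mn n (D + Δ), evc (x : ℂ) (mo (fun s : Fin n => F T s) (D + Δ) e) =
      ∏ s : Fin n, (evc (x : ℂ) (F T s)) ^ (e.1 s : ℕ) := by
    intro e
    unfold mo
    rw [Cvc.ev_prod _ _ fun s _ => (hcv s).pow _]
    exact Finset.prod_congr rfl fun s _ => (hcv s).ev_pow _
  refine hE₂ _ T (fun j => mo (fun s : Fin n => F T s) (D + Δ) (eqv j)) (eqv.symm e₀) K x X hfd hrk hx0
    hPt (hG2.reindex eqv) ?_ ?_ ?_ hXA (T_ne' h0 hd hH (hxR _ (by omega))) (Fintype.card (Mn n D))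
    (fun r j => vec PK (D + Δ) (eqv' r) (eqv j)) ?_ ?_ hD
  · rw [Equiv.apply_symm_apply]
    simp [mo, e₀]
  · exact (Pool.Agent.Y796.LI.t_LI n (D + Δ) T h0 hd hsq).comp _ eqv.injective
  · refine (mul_le_mul_of_nonneg_left (pow_base H _ _) (norm_nonneg _)).trans (hxR _ (by omega))
  · rw [Fintype.linearIndependent_iff]
    intro g hg r
    have h1 := vec_indep (D := D) PK hPK0 hPKd (fun e' => g (eqv'.symm e')) (by
      intro e
      have h2 := congrFun hg (eqv.symm e)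
      rw [Finset.sum_apply] at h2
      rw [← Equiv.sum_comp eqv']
      simp only [Pi.smul_apply, smul_eq_mul, Equiv.apply_symm_apply, Pi.zero_apply] at h2
      simp only [Equiv.symm_apply_apply]
      exact h2) (eqv' r)
    simpa using h1
  · intro r
    have h1 : MvPolynomial.aeval (fun s : Fin n => evc (x : ℂ) (F T s))
        (PK * MvPolynomial.monomial (toF (eqv' r)) (1 : K)) = 0 := by
      rw [map_mul, hPKv, zero_mul]
    have h2 : (PK * MvPolynomial.monomial (toF (eqv' r)) (1 : K)).totalDegree ≤ D + Δ := by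
      refine (MvPolynomial.totalDegree_mul _ _).trans ?_
      have := deg_toF (eqv' r) (1 : K)
      omega
    rw [aeval_sum' _ h2] at h1
    rw [Equiv.sum_comp eqv (fun e => ((vec PK (D + Δ) (eqv' r) e : K) : ℂ) *
      evc (x : ℂ) (mo (fun s : Fin n => F T s) (D + Δ) e))]
    simp only [hmo]
    exact h1

end Pool.Agent.R351.GD
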