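import Mathlib
import Pool.Agent.Y916.Al.WinP
import Pool.Agent.R351.GD.Valc

/-!
# Windows around algebraic points: polynomial dependence on the degree of the relations
-/

set_option autoImplicit false

open Module

namespace Pool.Agent.R351.GD

open Pool.Agent.Y916.Ari Pool.Agent.Y916.Fld
open Pool.Agent.Y916.Om
open Pool.Agent.Y916 Pool.Agent.Y916.Hil Pool.Agent.Y916.Gre Pool.Agent.Y916.Low Pool.Agent.Y113
open Pool.Agent.Y916.Al

theorem windowH_exp (r d τ A B m Ah : ℕ) : ∃ E : ℕ → ℕ, PB E ∧ ∀ (δ H : ℕ) (K₁ : IntermediateField ℚ ℂ) (ξ : K₁)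
    (X : ℝ),
    FiniteDimensional ℚ K₁ → finrank ℚ K₁ ≤ m → Pt K₁ ξ X → ((H : ℝ) + 2) ^ E δ ≤ ‖(ξ : ℂ)‖ → X ≤ ‖(ξ : ℂ)‖ ^ Ah →
    ∀ (υ : Type) [Fintype υ] (w : υ → ℂ) (T : Finset υ), T.card = τ → Dom A B w T →
    ∃ S : Finset ℂ, S.card ≤ τ ∧ ∀ β : Fin r → ℂ, Function.Injective β → (∀ i, β i ∉ S ∧ β i ≠ 0 ∧ Adm d H (β i)) →
      ∀ K : IntermediateField ℚ ℂ, FiniteDimensional ℚ K → finrank ℚ K ≤ δ →
      ∀ l : Fin r → ℂ, (∀ i, ∃ a : K, a ≠ 0 ∧ l i - a * Complex.log (1 + β i / ξ) ∈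
        Submodule.span K (insert 1 (Set.range w))) →
      ∀ P : MvPolynomial (υ ⊕ Fin r) K, P.totalDegree ≤ δ → MvPolynomial.aeval (Sum.elim w l) P = 0 →
      MvPolynomial.aeval (Sum.elim (fun j => MvPolynomial.C (w j)) MvPolynomial.X) P
        = (0 : MvPolynomial (Fin r) ℂ) := by
  classical
  set q : ℕ := τ + 1 with hq
  set N0 : ℕ := q * r with hN0
  set nm : ℕ := N0 * d with hnm
  set E0 : ℕ := (N0 + 3) * (N0 * d) with hE0
  choose Ev hEvp hEv' using fun n : ℕ => valc_exp n m (Ah + 1)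
  refine ⟨fun δ => (E0 + 2) * (∑ n ∈ Finset.range (nm + 1), Ev n
    (n * ((δ + 1) ^ q * (d + 1) ^ nm * (δ ^ (τ + 1) * A) * ((B + 1) * (2 * δ + 1) ^ (τ + 1) * n) ^ (n - 1)))) +
    N0 + 1, ?_, ?_⟩
  · have h1 : ∀ n : ℕ, PB fun δ =>
        n * ((δ + 1) ^ q * (d + 1) ^ nm * (δ ^ (τ + 1) * A) * ((B + 1) * (2 * δ + 1) ^ (τ + 1) * n) ^ (n - 1)) := by
      intro n
      have hD := ((PB.id.add (PB.const 1)).pow q).mul (PB.const ((d + 1) ^ nm))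
      have h2 := ((PB.const 2).mul PB.id).add (PB.const 1)
      have h3 := (((PB.const (B + 1)).mul (h2.pow (τ + 1))).mul (PB.const n)).pow (n - 1)
      exact (PB.const n).mul ((hD.mul ((PB.id.pow (τ + 1)).mul (PB.const A))).mul h3)
    have h4 := PB.sum (Finset.range (nm + 1)) (f := fun n δ => Ev n
      (n * ((δ + 1) ^ q * (d + 1) ^ nm * (δ ^ (τ + 1) * A) * ((B + 1) * (2 * δ + 1) ^ (τ + 1) * n) ^ (n - 1))))
      fun n _ => (hEvp n).comp (h1 n)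
    exact (((PB.const (E0 + 2)).mul h4).add (PB.const N0)).add (PB.const 1)
  intro δ
  set D : ℕ := (δ + 1) ^ q * (d + 1) ^ nm with hD
  set Dg : ℕ → ℕ := fun n => n * (D * (δ ^ (τ + 1) * A) * ((B + 1) * (2 * δ + 1) ^ (τ + 1) * n) ^ (n - 1)) with hDg
  have hEv := fun n => hEv' n (Dg n)
  set Ev : ℕ → ℕ := fun n => Ev n (Dg n) with hEvd
  intro H K₁ ξ X hK₁f hK₁d hPt hξH' hXξ υ _ w T hTc hAB
  have hξH : ((H : ℝ) + 2) ^ ((E0 + 2) * (∑ n ∈ Finset.range (nm + 1), Ev n) + N0 + 1) ≤ ‖(ξ : ℂ)‖ := hξH'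
  by_contra hcon
  push Not at hcon
  have hH0 : (0 : ℝ) ≤ H := Nat.cast_nonneg H
  have hH1 : (1 : ℝ) ≤ (H : ℝ) + 2 := by linarith
  have hξH2 : (H : ℝ) + 2 ≤ ‖(ξ : ℂ)‖ := by
    refine le_trans ?_ hξH
    exact le_self_pow₀ hH1 (by omega)
  have hξpos : 0 < ‖(ξ : ℂ)‖ := by linarith
  have hξ1 : 1 ≤ ‖(ξ : ℂ)‖ := by linarith
  have hξ0' : (ξ : ℂ) ≠ 0 := norm_pos_iff.1 hξpos
  have hξ0 : ξ ≠ 0 := by
    rintro rfl
    exact hξ0' rfl
  have hX0 : 0 ≤ X := by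
    obtain ⟨u, v, -, -, -, -, hσ⟩ := hPt
    exact (norm_nonneg _).trans (hσ (algebraMap K₁ ℂ)).1
  set y : ℂ → ℂ := fun z => Complex.log (1 + z / ξ) with hy
  set Co : {K : IntermediateField ℚ ℂ // FiniteDimensional ℚ K ∧ finrank ℚ K ≤ δ} → Set ℂ := fun K =>
    ((Submodule.span K.1 (insert (1 : ℂ) (Set.range w)) ^ δ : Submodule K.1 ℂ) : Set ℂ) with hCo
  obtain ⟨S, Bs, J, hS, hSB, hBr, hIr, hBa, hrk⟩ := greedyU (y := y) (Co := Co)
    (fun K => Submodule.zero_mem _) (δ := δ) q r (fun z => z ≠ 0 ∧ Adm d H z) (by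
      intro S hS
      obtain ⟨β, hinj, hβ, K, hKf, hKd, l, hl, P, hP, hP0, hPne⟩ := hcon S (by omega)
      choose a ha hla using hl
      refine ⟨Finset.univ.image β, ?_, ?_, ?_, ⟨K, hKf, hKd⟩, Qh K w β a (fun i => l i - a i * y (β i)) P, ?_,
        Qh_ok K w β a _ P hP hla, ?_⟩
      · refine Finset.card_image_le.trans ?_
        simp
      · intro b hb
        obtain ⟨i, -, rfl⟩ := Finset.mem_image.1 hb
        exact (hβ i).2
      · rw [Finset.disjoint_left]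
        intro b hb
        obtain ⟨i, -, rfl⟩ := Finset.mem_image.1 hb
        exact (hβ i).1
      · rw [Qh_eq]
        intro h0
        have h1 := MvPolynomial.rename_injective β hinj (h0.trans (map_zero _).symm)
        exact hPne (shift_injh K a _ ha (h1.trans (map_zero _).symm))
      · rw [aeval_Qh]
        have : (fun i => (a i : ℂ) * y (β i) + (l i - a i * y (β i))) = l := by
          funext i
          ring
        rw [this]
        exact hP0)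
  obtain ⟨L, hLf, hLd, hL⟩ := compositum J
  obtain ⟨a, T', Θ, ha1, haH, hBΘ, hT0, hTn, hΘc, hTsq, hTH, hTm, hΘa, hΘb, hΘ0⟩ := arith2 d H N0 Bs hBr
    (fun b hb => (hBa b hb).2) (fun b hb => (hBa b hb).1)
  obtain ⟨K', hKK', hΘK', hK'f, hK'd⟩ := Pool.Agent.Y916.Fld.field L hLf d Θ fun z hz => adm_deg (hΘa z hz)
  set n : ℕ := Θ.card with hn
  have hΘc : n ≤ nm := hΘc
  set V : Submodule K' ℂ := Submodule.span K' (insert (1 : ℂ) (Set.range w)) with hV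
  have hD' : finrank ℚ K' ≤ D := by
    refine hK'd.trans (Nat.mul_le_mul ?_ ?_)
    · refine hLd.trans ((Nat.pow_le_pow_left (Nat.le_succ δ) _).trans ?_)
      exact Nat.pow_le_pow_right (Nat.succ_pos δ) hIr
    · exact (Nat.pow_le_pow_left (Nat.le_succ d) _).trans (Nat.pow_le_pow_right (Nat.succ_pos d) hΘc)
  have hV1 : (1 : ℂ) ∈ V := Submodule.subset_span (Set.mem_insert _ _)
  have hub := hrk K' V (Submodule.fg_span ((Set.finite_range w).insert 1)) hV1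
    (fun K hK c hc => span_pow_field ((hL K hK).trans hKK') hc) Θ hBΘ
  have haR : (1 : ℝ) ≤ a := by exact_mod_cast ha1
  have ha0 : (0 : ℝ) < a := by linarith
  set x : K₁ := 1 / ((a : K₁) * ξ) with hx
  have hxC : (x : ℂ) = 1 / ((a : ℂ) * ξ) := by
    rw [hx]
    push_cast
    rfl
  have hxn : ‖(x : ℂ)‖ = 1 / (a * ‖(ξ : ℂ)‖) := by
    rw [hxC, norm_div, norm_one, norm_mul, Complex.norm_natCast]
  refine contra' (A := A) (B := B) (δ := δ) K' hD' w T ?_ y Θ S (hSB.trans hBΘ) (by rw [hS, hTc]) rfl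
    (fun s : Fin n => evc (x : ℂ) (F T' s)) ?_ (by rw [hTc]; exact hub) ?_
  · intro W h1 h2 h3 Δ
    rw [Finset.coe_univ, Set.image_univ]
    exact hAB K' W h1 h2 h3 Δ
  · intro s
    rw [hxC]
    refine valc_mem ha1 hξH2 hTm hΘb hΘ0 K' hΘK' (V ⊔ Submodule.span K' (y '' (Θ : Set ℂ))) ?_ s s.2
    intro z hz
    exact Submodule.mem_sup_right (Submodule.subset_span ⟨z, hz, rfl⟩)
  · intro P hP hP0
    rw [hTc] at hP
    have haξ : (a : ℝ) ≤ ‖(ξ : ℂ)‖ := by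
      refine le_trans ?_ hξH
      have h1 : (a : ℝ) ≤ ((H : ℝ) + 2) ^ N0 := by exact_mod_cast haH
      exact h1.trans (pow_le_pow_right₀ hH1 (by omega))
    have hbig : ((((H + 2) ^ E0 : ℕ) : ℝ) + 2) ^ Ev n ≤ ‖(ξ : ℂ)‖ := by
      have h0 : ((H + 2) ^ E0 + 2) ^ Ev n ≤ (H + 2) ^ ((E0 + 2) * (∑ n ∈ Finset.range (nm + 1), Ev n) + N0 + 1) := by
        calc ((H + 2) ^ E0 + 2) ^ Ev n ≤ ((H + 2) ^ (E0 + 2)) ^ Ev n := by
              refine Nat.pow_le_pow_left ?_ _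
              have h1 : 1 ≤ (H + 2) ^ E0 := Nat.one_le_pow _ _ (by omega)
              have h2 : (H + 2) ^ (E0 + 2) = (H + 2) ^ E0 * ((H + 2) * (H + 2)) := by ring
              have h7 : 2 * 2 ≤ (H + 2) * (H + 2) := Nat.mul_le_mul (by omega) (by omega)
              have h8 := Nat.mul_le_mul_left ((H + 2) ^ E0) h7
              rw [h2]
              omega
          _ = (H + 2) ^ ((E0 + 2) * Ev n) := by rw [← pow_mul]
          _ ≤ _ := by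
              refine Nat.pow_le_pow_right (by omega) ?_
              have h3 : Ev n ≤ ∑ n ∈ Finset.range (nm + 1), Ev n :=
                Finset.single_le_sum (f := Ev) (fun i _ => Nat.zero_le _) (Finset.mem_range.2 (by omega))
              have h4 := Nat.mul_le_mul_left (E0 + 2) h3
              omega
      refine le_trans ?_ hξH
      exact_mod_cast h0
    refine hEv n ((H + 2) ^ E0) T' K₁ x (a * X) hK₁f hK₁d ?_ ?_ ?_ ?_ hT0 hTn hTsq hTH P hP hP0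
    · intro h0
      have h1 : (x : ℂ) = 0 := by rw [h0]; rfl
      rw [hxC] at h1
      have h2 : (a : ℂ) ≠ 0 := by exact_mod_cast ha0.ne'
      exact one_div_ne_zero (mul_ne_zero h2 hξ0') h1
    · exact Pt.inv hX0 hξ0 hPt a ha1
    · rw [hxn, one_div, inv_mul_le_iff₀ (by positivity), mul_one]
      refine hbig.trans (le_mul_of_one_le_left (norm_nonneg _) haR)
    · rw [hxn, one_div, inv_pow, ← div_eq_mul_inv, div_le_one (by positivity), mul_pow, pow_succ (a : ℝ) Ah]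
      have h1 : (1 : ℝ) ≤ (a : ℝ) ^ Ah := one_le_pow₀ haR
      have h2 : ‖(ξ : ℂ)‖ ^ Ah ≤ ‖(ξ : ℂ)‖ ^ (Ah + 1) := pow_le_pow_right₀ hξ1 (by omega)
      calc (a : ℝ) * X ≤ a * ‖(ξ : ℂ)‖ ^ (Ah + 1) := mul_le_mul_of_nonneg_left (hXξ.trans h2) ha0.le
        _ = 1 * a * ‖(ξ : ℂ)‖ ^ (Ah + 1) := by ring
        _ ≤ (a : ℝ) ^ Ah * a * ‖(ξ : ℂ)‖ ^ (Ah + 1) := by
            refine mul_le_mul_of_nonneg_right (mul_le_mul_of_nonneg_right h1 ha0.le) (by positivity)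

theorem windowP_exp (r d τ A B m Ah : ℕ) : ∃ E : ℕ → ℕ, PB E ∧ (∀ δ, 1 ≤ E δ) ∧ ∀ (δ H : ℕ) (ξ : ℂ),
    ((H : ℝ) + 2) ^ E δ ≤ ‖ξ‖ → Ht m Ah ξ →
    ∀ (υ : Type) [Fintype υ] (w : υ → ℂ) (T : Finset υ), T.card = τ → Dom A B w T →
    ∃ S : Finset ℂ, S.card ≤ τ ∧ ∀ β : Fin r → ℂ, Function.Injective β → (∀ i, β i ∉ S ∧ β i ≠ 0 ∧ Adm d H (β i)) →
      ∀ K : IntermediateField ℚ ℂ, FiniteDimensional ℚ K → finrank ℚ K ≤ δ →
      ∀ l : Fin r → ℂ, (∀ i, ∃ a : K, a ≠ 0 ∧ l i - a * Complex.log (1 + β i / ξ) ∈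
        Submodule.span K (insert 1 (Set.range w))) →
      ∀ P : MvPolynomial (υ ⊕ Fin r) K, P.totalDegree ≤ δ → MvPolynomial.aeval (Sum.elim w l) P = 0 →
      MvPolynomial.aeval (Sum.elim (fun j => MvPolynomial.C (w j)) MvPolynomial.X) P
        = (0 : MvPolynomial (Fin r) ℂ) := by
  obtain ⟨E, hEp, hE⟩ := windowH_exp r d τ A B m (2 * Ah + 2)
  refine ⟨fun δ => E δ + 1, hEp.add (PB.const 1), fun δ => Nat.le_add_left _ _, ?_⟩
  intro δ H ξ hξ hHt υ _ w T hT hD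
  have hE := hE δ
  set E := E δ
  replace hξ : ((H : ℝ) + 2) ^ (E + 1) ≤ ‖ξ‖ := hξ
  obtain ⟨p, hp0, hpd, hpY, hp⟩ := hHt
  have hH : (1 : ℝ) ≤ (H : ℝ) + 2 := by linarith [(Nat.cast_nonneg H : (0 : ℝ) ≤ H)]
  have hξ2 : (2 : ℝ) ≤ ‖ξ‖ := by
    refine le_trans ?_ hξ
    calc (2 : ℝ) ≤ (H : ℝ) + 2 := by linarith [(Nat.cast_nonneg H : (0 : ℝ) ≤ H)]
      _ ≤ _ := le_self_pow₀ hH (by omega)
  obtain ⟨K₁, ξ', h1, h2, h3, h4⟩ := pt_root hp0 hpd hpY hp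
  obtain ⟨S, hS, h⟩ := hE H K₁ ξ' (‖ξ‖ ^ Ah * (‖ξ‖ ^ Ah + 2)) h1 h2 h4 (by
    rw [h3]
    exact (pow_le_pow_right₀ hH (by omega)).trans hξ) (by
    rw [h3]
    have h5 : (1 : ℝ) ≤ ‖ξ‖ ^ Ah := one_le_pow₀ (by linarith)
    calc ‖ξ‖ ^ Ah * (‖ξ‖ ^ Ah + 2) ≤ ‖ξ‖ ^ Ah * (‖ξ‖ ^ Ah * ‖ξ‖ ^ 2) := by
          refine mul_le_mul_of_nonneg_left ?_ (by positivity)
          have h6 : (4 : ℝ) ≤ ‖ξ‖ ^ 2 := by nlinarith
          have h7 : ‖ξ‖ ^ Ah * 4 ≤ ‖ξ‖ ^ Ah * ‖ξ‖ ^ 2 := mul_le_mul_of_nonneg_left h6 (by positivity)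
          linarith
      _ = ‖ξ‖ ^ (2 * Ah + 2) := by ring) υ w T hT hD
  refine ⟨S, hS, ?_⟩
  rw [h3] at h
  exact h

end Pool.Agent.R351.GD
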