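import Mathlib
import Pool.Agent.R351.GD.Win
import Pool.Agent.R351.SU.Gen

/-!
# Windows around an algebraic number; the integers up to `T`
-/

set_option autoImplicit false

namespace Pool.Agent.R351.GD

open Module Finset Pool.Agent.Y916.Al Pool.Agent.Y916.Om Pool.Agent.R351.SU

/-- the constants -/
noncomputable def cs {υ : Type} (ξ : ℂ) (w : υ → ℂ) : υ ⊕ Bool → ℂ :=
  Sum.elim w fun b => if b then 2 * Real.pi * Complex.I else Complex.log ξ

/-- at most `N + 2` exceptional numbers in a window around an algebraic number -/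
theorem base_window (N d m Ah : ℕ) : ∃ E : ℕ → ℕ, PB E ∧ (∀ δ, 1 ≤ E δ) ∧ ∀ (υ : Type) [Fintype υ],
    Fintype.card υ = N → ∀ (w : υ → ℂ) (δ H : ℕ) (ξ : ℂ), ((H : ℝ) + 2) ^ E δ ≤ ‖ξ‖ → Ht m Ah ξ →
    ∀ B : Finset ℂ, (∀ β ∈ B, β ≠ 0 ∧ Pool.Agent.Y916.Ari.Adm d H β ∧ Exc δ δ w (ξ + β)) →
      B.card ≤ N + 2 := by
  classical
  obtain ⟨E, hEp, hE1, hE⟩ := windowP_exp 1 d (N + 2) 1 1 m Ah
  refine ⟨E, hEp, hE1, fun υ _ hυ w δ H ξ hξ hHt B hB => ?_⟩
  have hξ0 : ξ ≠ 0 := by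
    rintro rfl
    rw [norm_zero] at hξ
    have : (0 : ℝ) < ((H : ℝ) + 2) ^ E δ := by positivity
    linarith
  obtain ⟨S, hS, h⟩ := hE δ H ξ hξ hHt (υ ⊕ Bool) (cs ξ w) Finset.univ
    (by rw [Finset.card_univ, Fintype.card_sum, Fintype.card_bool, hυ]) (Dom.univ _)
  refine (Finset.card_le_card fun β hβ => ?_).trans hS
  by_contra hβS
  obtain ⟨hβ0, hβA, l, hl, K, hK, hKd, P, hPd, hP0, hP1⟩ := hB β hβ
  have hval : ξ + β = ξ * (1 + β / ξ) := by field_simp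
  have h10 : 1 + β / ξ ≠ 0 := by
    intro h0
    rw [hval, h0, mul_zero] at hl
    exact Complex.exp_ne_zero _ hl
  obtain ⟨z, hz⟩ : ∃ z : ℤ, l = Complex.log (1 + β / ξ) + Complex.log ξ + z * (2 * Real.pi * Complex.I) := by
    have h2 : Complex.exp l = Complex.exp (Complex.log (1 + β / ξ) + Complex.log ξ) := by
      rw [hl, Complex.exp_add, Complex.exp_log h10, Complex.exp_log hξ0, hval, mul_comm]
    exact Complex.exp_eq_exp_iff_exists_int.1 h2
  have hspan : l - (1 : K) * Complex.log (1 + β / ξ) ∈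
      Submodule.span K (insert 1 (Set.range (cs ξ w))) := by
    have hin : ∀ x, cs ξ w x ∈ Submodule.span K (insert 1 (Set.range (cs ξ w))) :=
      fun x => Submodule.subset_span (Or.inr ⟨x, rfl⟩)
    have h3 : l - (1 : K) * Complex.log (1 + β / ξ) =
        cs ξ w (Sum.inr false) + (z : K) • cs ξ w (Sum.inr true) := by
      have h5 : ((z : K) • cs ξ w (Sum.inr true) : ℂ) = (z : ℂ) * (2 * Real.pi * Complex.I) := by
        rw [Algebra.smul_def]
        simp [cs]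
      have h6 : cs ξ w (Sum.inr false) = Complex.log ξ := by simp [cs]
      rw [hz, h5, h6]
      push_cast
      ring
    rw [h3]
    exact Submodule.add_mem _ (hin _) (Submodule.smul_mem _ _ (hin _))
  have h7 := h (fun _ => β) (fun a b _ => Subsingleton.elim a b) (fun _ => ⟨hβS, hβ0, hβA⟩) K hK
    hKd (fun _ => l) (fun _ => ⟨1, one_ne_zero, hspan⟩)
    (MvPolynomial.rename (Sum.map Sum.inl id) P) ((MvPolynomial.totalDegree_rename_le _ _).trans hPd)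
    (by
      rw [MvPolynomial.aeval_rename, ← hP0]
      congr 2
      funext x
      rcases x with x | x <;> rfl)
  rw [MvPolynomial.aeval_rename] at h7
  apply hP1
  rw [← h7]
  congr 2
  funext x
  rcases x with x | x <;> rfl

theorem Exc.mono_deg {υ : Type} {d d' δ : ℕ} {w : υ → ℂ} {a : ℂ} (h : Exc d δ w a) (hd : d ≤ d') :
    Exc d' δ w a := by
  obtain ⟨l, hl, K, hK, hKd, h⟩ := h
  exact ⟨l, hl, K, hK, hKd.trans hd, h⟩

theorem ht_nat {N : ℕ} (hN : 1 ≤ N) : Ht 1 1 (N : ℂ) := by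
  refine ⟨Polynomial.X - Polynomial.C (N : ℤ), Polynomial.X_sub_C_ne_zero _, ?_, fun j => ?_, ?_⟩
  · rw [Polynomial.natDegree_X_sub_C]
  · rw [Complex.norm_natCast, pow_one, Polynomial.coeff_sub, Polynomial.coeff_X, Polynomial.coeff_C]
    have h1 : (1 : ℝ) ≤ N := by exact_mod_cast hN
    split_ifs with h2 h3 h3
    · omega
    · simpa using h1
    · simp
    · simp
  · rw [map_sub, Polynomial.aeval_X, Polynomial.aeval_C]
    simp

theorem adm_int {d H : ℕ} (hd : 1 ≤ d) {b : ℤ} (hb0 : b ≠ 0) (hb : |b| ≤ H) :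
    Pool.Agent.Y916.Ari.Adm d H (b : ℂ) := by
  refine ⟨Polynomial.X - Polynomial.C b, Polynomial.X_sub_C_ne_zero _, ?_, fun j => ?_, ?_⟩
  · rw [Polynomial.natDegree_X_sub_C]
    exact hd
  · rw [Polynomial.coeff_sub, Polynomial.coeff_X, Polynomial.coeff_C]
    have h1 : 1 ≤ |b| := Int.one_le_abs hb0
    split_ifs with h2 h3 h3
    · omega
    · rw [sub_zero, abs_one]; exact h1.trans hb
    · rw [zero_sub, abs_neg]; exact hb
    · rw [sub_zero, abs_zero]; exact Int.natCast_nonneg _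
  · rw [map_sub, Polynomial.aeval_X, Polynomial.aeval_C]
    simp

/-- windows of integers -/
theorem int_window (N : ℕ) : ∃ E : ℕ → ℕ, PB E ∧ (∀ δ, 1 ≤ E δ) ∧ ∀ (υ : Type) [Fintype υ],
    Fintype.card υ = N → ∀ (w : υ → ℂ) (δ H M : ℕ), (H + 2) ^ E δ ≤ M →
    ∀ B : Finset ℕ, (∀ n ∈ B, M < n ∧ n ≤ M + H ∧ Exc δ δ w (n : ℂ)) → B.card ≤ N + 2 := by
  classical
  obtain ⟨E, hEp, hE1, hE⟩ := base_window N 1 1 1
  refine ⟨E, hEp, hE1, fun υ _ hυ w δ H M hM B hB => ?_⟩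
  have hM1 : 1 ≤ M := (Nat.one_le_pow _ _ (by omega)).trans hM
  have hinj : Set.InjOn (fun n : ℕ => ((n : ℂ) - M)) B := by
    intro a _ b _ hab
    have : (a : ℂ) = b := by
      have h : (a : ℂ) - M = b - M := hab
      linear_combination h
    exact_mod_cast this
  rw [← Finset.card_image_of_injOn hinj]
  refine hE υ hυ w δ H (M : ℂ) (by rw [Complex.norm_natCast]; exact_mod_cast hM) (ht_nat hM1) _ ?_
  intro β hβ
  obtain ⟨n, hn, rfl⟩ := Finset.mem_image.1 hβ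
  obtain ⟨h1, h2, h3⟩ := hB n hn
  have h4 : ((n : ℂ) - M) = (((n : ℤ) - M : ℤ) : ℂ) := by push_cast; ring
  refine ⟨?_, ?_, ?_⟩
  · rw [h4]
    exact_mod_cast (show (n : ℤ) - M ≠ 0 by omega)
  · rw [h4]
    apply adm_int le_rfl (by omega)
    rw [abs_le]
    constructor <;> omega
  · rw [add_sub_cancel]
    exact h3

/-- the number of exceptional integers up to `T` -/
theorem int_count (N : ℕ) : ∃ E : ℕ → ℕ, PB E ∧ (∀ δ, 1 ≤ E δ) ∧ ∀ (υ : Type) [Fintype υ],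
    Fintype.card υ = N → ∀ (w : υ → ℂ) (δ T : ℕ), 1 ≤ T →
    ∀ B : Finset ℕ, (∀ n ∈ B, 1 ≤ n ∧ n ≤ T ∧ Exc δ δ w (n : ℂ)) →
      (B.card : ℝ) ≤ 8 * (N + 2) * (T : ℝ) ^ (1 - 1 / (2 * E δ : ℝ)) := by
  classical
  obtain ⟨E, hEp, hE1, hE⟩ := int_window N
  refine ⟨E, hEp, hE1, fun υ _ hυ w δ T hT B hB => ?_⟩
  have hE1' : (1 : ℝ) ≤ E δ := by exact_mod_cast hE1 δ
  have hT1 : (1 : ℝ) ≤ T := by exact_mod_cast hT
  have hT0 : (0 : ℝ) < T := by linarith
  set a : ℝ := 1 / (2 * E δ : ℝ) with ha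
  have ha0 : 0 < a := by positivity
  have ha1 : a ≤ 1 / 2 := by
    rw [ha]
    apply one_div_le_one_div_of_le (by norm_num)
    linarith
  set y : ℝ := (T : ℝ) ^ a with hy
  have hy1 : 1 ≤ y := Real.one_le_rpow hT1 ha0.le
  set Z : ℝ := (T : ℝ) ^ (1 - a) with hZ
  have hZ0 : 0 < Z := Real.rpow_pos_of_pos hT0 _
  have hZy : Z * y = T := by
    rw [hZ, hy, ← Real.rpow_add hT0]
    rw [sub_add_cancel, Real.rpow_one]
  have hZs : √(T : ℝ) ≤ Z := by
    rw [Real.sqrt_eq_rpow, hZ]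
    exact Real.rpow_le_rpow_of_exponent_le hT1 (by linarith)
  have hsub : B ⊆ Icc 1 T := fun n hn => mem_Icc.2 ⟨(hB n hn).1, (hB n hn).2.1⟩
  have hN0 : (0 : ℝ) ≤ N := Nat.cast_nonneg _
  rcases lt_or_ge y 8 with h8 | h8
  · have h1 := card_le_card hsub
    rw [Nat.card_Icc, Nat.add_sub_cancel] at h1
    have h2 : (B.card : ℝ) ≤ T := by exact_mod_cast h1
    refine h2.trans ?_
    rw [← hZy]
    nlinarith
  -- the windows
  set h : ℕ := ⌊y⌋₊ with hh
  have hhy : (h : ℝ) ≤ y := Nat.floor_le (by linarith)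
  have hhy2 : y < h + 1 := Nat.lt_floor_add_one y
  have hh8 : 8 ≤ h := Nat.le_floor (by exact_mod_cast h8)
  set s : ℕ := ⌈√(T : ℝ)⌉₊ with hs
  have hs1 : √(T : ℝ) ≤ s := Nat.le_ceil _
  have hs2 : (s : ℝ) < √(T : ℝ) + 1 := Nat.ceil_lt_add_one (Real.sqrt_nonneg _)
  have hhE : (h : ℝ) ^ E δ ≤ √(T : ℝ) := by
    calc (h : ℝ) ^ E δ ≤ y ^ E δ := pow_le_pow_left₀ (Nat.cast_nonneg _) hhy _
      _ = √(T : ℝ) := by
        rw [hy, ← Real.rpow_natCast, ← Real.rpow_mul hT0.le, Real.sqrt_eq_rpow]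
        congr 1
        rw [ha]
        field_simp
  have hhs : h ^ E δ ≤ s := by
    have : ((h ^ E δ : ℕ) : ℝ) ≤ s := by push_cast; linarith
    exact_mod_cast this
  set H : ℕ := h - 2 with hH
  have hH1 : 1 ≤ H := by omega
  have hH2 : H + 2 = h := by omega
  set B₀ := B.filter fun n => n ≤ s with hB₀
  set B₁ := B.filter fun n => ¬ n ≤ s with hB₁
  have hsplit : B.card = B₀.card + B₁.card := by
    rw [hB₀, hB₁, Finset.card_filter_add_card_filter_not]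
  have h0 : B₀.card ≤ s := by
    have h1 : B₀ ⊆ Icc 1 s := fun n hn => by
      rw [hB₀, mem_filter] at hn
      exact mem_Icc.2 ⟨(hB n hn.1).1, hn.2⟩
    have h2 := card_le_card h1
    rwa [Nat.card_Icc, Nat.add_sub_cancel] at h2
  have h1 : B₁.card ≤ (N + 2) * (T / H + 1) := by
    have hmaps : ∀ n ∈ B₁, (n - s - 1) / H ∈ range (T / H + 1) := by
      intro n hn
      rw [hB₁, mem_filter] at hn
      have := (hB n hn.1).2.1
      rw [mem_range, Nat.lt_succ_iff]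
      exact Nat.div_le_div_right (by omega)
    have h2 := Finset.card_le_mul_card_image_of_maps_to hmaps (N + 2) fun t _ => by
      refine hE υ hυ w δ H (s + H * t) (by rw [hH2]; omega) _ fun n hn => ?_
      rw [mem_filter, hB₁, mem_filter] at hn
      obtain ⟨⟨hnB, hns⟩, hnt⟩ := hn
      have h3 := Nat.div_add_mod (n - s - 1) H
      have h4 := Nat.mod_lt (n - s - 1) (by omega : H > 0)
      rw [hnt] at h3
      exact ⟨by omega, by omega, (hB n hnB).2.2⟩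
    rwa [card_range] at h2
  have hHy : y ≤ 2 * H := by
    have h2 : (H : ℝ) = h - 2 := by rw [hH]; push_cast [show 2 ≤ h by omega]; ring
    have h3 : (8 : ℝ) ≤ h := by exact_mod_cast hh8
    rw [h2]
    linarith
  have hTH : ((T / H : ℕ) : ℝ) ≤ 2 * Z := by
    refine Nat.cast_div_le.trans ?_
    have hH0 : (0 : ℝ) < H := by exact_mod_cast hH1
    rw [div_le_iff₀ hH0, ← hZy]
    nlinarith
  have hZ1 : 1 ≤ Z := by
    have : 1 ≤ √(T : ℝ) := Real.one_le_sqrt.2 hT1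
    linarith
  have h1' : (B₁.card : ℝ) ≤ (N + 2) * (((T / H : ℕ) : ℝ) + 1) := by exact_mod_cast h1
  have h0' : (B₀.card : ℝ) ≤ s := by exact_mod_cast h0
  rw [hsplit]
  push_cast
  nlinarith

/-- tuples of integers: **main statement** -/
theorem int_tuples (k q : ℕ) : ∃ C : ℕ, ∀ (δ T : ℕ), 1 ≤ T → ∀ w : Fin q → ℂ,
    ((exG (fun (_ : Fin k) (n : ℕ) => (n : ℂ)) δ δ w fun _ => Icc 1 T).card : ℝ) ≤
      C * (T : ℝ) ^ ((k : ℝ) - 1 / ((δ : ℝ) + 2) ^ C) := by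
  classical
  obtain ⟨E, ⟨c, hc⟩, hE1, hE⟩ := int_count (q + k + 1)
  refine ⟨8 * (q + k + 1 + 2) * k + (c + 1), fun δ T hT w => ?_⟩
  set C := 8 * (q + k + 1 + 2) * k + (c + 1) with hC
  have hT1 : (1 : ℝ) ≤ T := by exact_mod_cast hT
  have hT0 : (0 : ℝ) < T := by linarith
  set Z : ℝ := 8 * (q + k + 1 + 2) * (T : ℝ) ^ (1 - 1 / (2 * E δ : ℝ)) with hZ
  have hZ0 : 0 ≤ Z := by positivity
  have h1 := exG_card (fun (_ : Fin k) (n : ℕ) => (n : ℂ)) δ δ w (fun _ => Icc 1 T) T ⌊Z⌋₊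
    (fun j => by rw [Nat.card_Icc, Nat.add_sub_cancel]) (fun j w' B hB => by
      apply Nat.le_floor
      have h2 := hE (Option (Fin q ⊕ Fin k)) (by simp) w' δ T hT B fun n hn => by
        have h3 := hB n hn
        rw [mem_Icc] at h3
        exact ⟨h3.1.1, h3.1.2, h3.2⟩
      rw [hZ]
      push_cast at h2
      exact h2)
  have h2 : ((exG (fun (_ : Fin k) (n : ℕ) => (n : ℂ)) δ δ w fun _ => Icc 1 T).card : ℝ) ≤
      k * ⌊Z⌋₊ * (T : ℝ) ^ (k - 1) := by exact_mod_cast h1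
  refine h2.trans ?_
  rcases Nat.eq_zero_or_pos k with hk | hk
  · subst hk
    simp only [Nat.cast_zero, zero_mul]
    positivity
  have h3 : (⌊Z⌋₊ : ℝ) ≤ Z := Nat.floor_le hZ0
  have hEp : (2 * E δ : ℝ) ≤ ((δ : ℝ) + 2) ^ C := by
    have h4 : 2 * E δ ≤ (δ + 2) ^ (c + 1) := by
      rw [pow_succ, mul_comm 2]
      exact Nat.mul_le_mul (hc δ) (by omega)
    have h5 : (δ + 2) ^ (c + 1) ≤ (δ + 2) ^ C := Nat.pow_le_pow_right (by omega) (by omega)
    exact_mod_cast h4.trans h5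
  have hE0 : (0 : ℝ) < 2 * E δ := by
    have := hE1 δ
    have : (1 : ℝ) ≤ E δ := by exact_mod_cast this
    linarith
  have h6 : 1 / ((δ : ℝ) + 2) ^ C ≤ 1 / (2 * E δ : ℝ) := one_div_le_one_div_of_le hE0 hEp
  calc (k : ℝ) * ⌊Z⌋₊ * (T : ℝ) ^ (k - 1) ≤ k * Z * (T : ℝ) ^ (k - 1) := by
        gcongr
    _ = 8 * (q + k + 1 + 2) * k * ((T : ℝ) ^ (1 - 1 / (2 * E δ : ℝ)) * (T : ℝ) ^ (k - 1)) := by
        rw [hZ]; ring
    _ = 8 * (q + k + 1 + 2) * k * (T : ℝ) ^ ((k : ℝ) - 1 / (2 * E δ : ℝ)) := by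
        rw [← Real.rpow_natCast, ← Real.rpow_add hT0]
        congr 2
        rw [Nat.cast_sub hk]
        push_cast
        ring
    _ ≤ C * (T : ℝ) ^ ((k : ℝ) - 1 / ((δ : ℝ) + 2) ^ C) := by
        refine mul_le_mul ?_ (Real.rpow_le_rpow_of_exponent_le hT1 (by linarith)) (by positivity)
          (Nat.cast_nonneg _)
        rw [hC]
        push_cast
        have : (0 : ℝ) ≤ c := Nat.cast_nonneg _
        linarith

end Pool.Agent.R351.GD
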