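import Mathlib
import Pool.Agent.R351.GD.Base

/-!
# Windows around an algebraic number: tuples of logarithms; exponentials of algebraic numbers as constants
-/

set_option autoImplicit false

namespace Pool.Agent.R351.GD

open Module Finset Pool.Agent.Y916.Al Pool.Agent.Y916.Om Pool.Agent.R351.SU

theorem cs_span {υ : Type} (ξ : ℂ) (w : υ → ℂ) (hξ0 : ξ ≠ 0) (K : IntermediateField ℚ ℂ) (β l : ℂ)
    (hl : Complex.exp l = ξ + β) : l - (1 : K) * Complex.log (1 + β / ξ) ∈
      Submodule.span K (insert 1 (Set.range (cs ξ w))) := by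
  have hval : ξ + β = ξ * (1 + β / ξ) := by field_simp
  have h10 : 1 + β / ξ ≠ 0 := by
    intro h0
    rw [hval, h0, mul_zero] at hl
    exact Complex.exp_ne_zero _ hl
  obtain ⟨z, hz⟩ : ∃ z : ℤ, l = Complex.log (1 + β / ξ) + Complex.log ξ + z * (2 * Real.pi * Complex.I) := by
    have h2 : Complex.exp l = Complex.exp (Complex.log (1 + β / ξ) + Complex.log ξ) := by
      rw [hl, Complex.exp_add, Complex.exp_log h10, Complex.exp_log hξ0, hval, mul_comm]
    exact Complex.exp_eq_exp_iff_exists_int.1 h2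
  have hin : ∀ x, cs ξ w x ∈ Submodule.span K (insert 1 (Set.range (cs ξ w))) :=
    fun x => Submodule.subset_span (Or.inr ⟨x, rfl⟩)
  have h3 : l - (1 : K) * Complex.log (1 + β / ξ) =
      cs ξ w (Sum.inr false) + (z : K) • cs ξ w (Sum.inr true) := by
    have h5 : ((z : K) • cs ξ w (Sum.inr true) : ℂ) = (z : ℂ) * (2 * Real.pi * Complex.I) := by
      rw [Algebra.smul_def]
      simp [cs]
    have h6 : cs ξ w (Sum.inr false) = Complex.log ξ := by simp [cs]
    rw [hz, h5, h6]
    push_cast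
    ring
  rw [h3]
  exact Submodule.add_mem _ (hin _) (Submodule.smul_mem _ _ (hin _))

/-- tuples of logarithms in a window -/
theorem multi_window (N r d m Ah : ℕ) : ∃ E : ℕ → ℕ, PB E ∧ (∀ δ, 1 ≤ E δ) ∧ ∀ (υ : Type) [Fintype υ],
    Fintype.card υ = N → ∀ (w : υ → ℂ) (δ H : ℕ) (ξ : ℂ), ((H : ℝ) + 2) ^ E δ ≤ ‖ξ‖ → Ht m Ah ξ →
    ∃ S : Finset ℂ, S.card ≤ N + 2 ∧ ∀ β : Fin r → ℂ, Function.Injective β →
      (∀ i, β i ∉ S ∧ β i ≠ 0 ∧ Pool.Agent.Y916.Ari.Adm d H (β i)) →
      ∀ x : Fin r → ℂ, (∀ i, Complex.exp (x i) = ξ + β i) →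
      ∀ K : IntermediateField ℚ ℂ, FiniteDimensional ℚ K → finrank ℚ K ≤ δ →
      ∀ P : MvPolynomial (υ ⊕ Fin r) K, P.totalDegree ≤ δ → MvPolynomial.aeval (Sum.elim w x) P = 0 →
      MvPolynomial.aeval (Sum.elim (fun j => MvPolynomial.C (w j)) MvPolynomial.X) P =
        (0 : MvPolynomial (Fin r) ℂ) := by
  classical
  obtain ⟨E, hEp, hE1, hE⟩ := windowP_exp r d (N + 2) 1 1 m Ah
  refine ⟨E, hEp, hE1, fun υ _ hυ w δ H ξ hξ hHt => ?_⟩
  have hξ0 : ξ ≠ 0 := by
    rintro rfl
    rw [norm_zero] at hξ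
    have : (0 : ℝ) < ((H : ℝ) + 2) ^ E δ := by positivity
    linarith
  obtain ⟨S, hS, h⟩ := hE δ H ξ hξ hHt (υ ⊕ Bool) (cs ξ w) Finset.univ
    (by rw [Finset.card_univ, Fintype.card_sum, Fintype.card_bool, hυ]) (Dom.univ _)
  refine ⟨S, hS, fun β hinj hβ x hx K hK hKd P hPd hP0 => ?_⟩
  have h7 := h β hinj hβ K hK hKd x (fun i => ⟨1, one_ne_zero, cs_span ξ w hξ0 K (β i) (x i) (hx i)⟩)
    (MvPolynomial.rename (Sum.map Sum.inl id) P) ((MvPolynomial.totalDegree_rename_le _ _).trans hPd)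
    (by
      rw [MvPolynomial.aeval_rename, ← hP0]
      congr 2
      funext x
      rcases x with x | x <;> rfl)
  rw [MvPolynomial.aeval_rename] at h7
  rw [← h7]
  congr 2
  funext x
  rcases x with x | x <;> rfl

theorem inj_subK {l : ℕ} {κ : Type} {R : Type} [Field R] [Algebra R ℂ] (e : Fin l → ℂ)
    (he : AlgebraicIndependent R e) (N : MvPolynomial (Fin l ⊕ κ) R)
    (h : MvPolynomial.aeval (Sum.elim (fun j => MvPolynomial.C (e j)) MvPolynomial.X) N
      = (0 : MvPolynomial κ ℂ)) : N = 0 := by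
  have h1 : ∀ M : MvPolynomial (Fin l ⊕ κ) R,
      MvPolynomial.aeval (Sum.elim (fun j => MvPolynomial.C (e j)) MvPolynomial.X) M =
      MvPolynomial.map (MvPolynomial.aeval e : MvPolynomial (Fin l) R →ₐ[R] ℂ).toRingHom
        (MvPolynomial.sumAlgEquiv R κ (Fin l) (MvPolynomial.rename Sum.swap M)) := by
    intro M
    induction M using MvPolynomial.induction_on with
    | C a => simp
    | add p q hp hq => rw [map_add, hp, hq, map_add, map_add, map_add]
    | mul_X p i hp =>
      rw [map_mul, hp, map_mul, map_mul, map_mul, MvPolynomial.aeval_X, MvPolynomial.rename_X]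
      congr 1
      rcases i with j | i
      · simp
      · simp
  rw [h1] at h
  have h2 := MvPolynomial.map_injective (MvPolynomial.aeval e : MvPolynomial (Fin l) R →ₐ[R] ℂ).toRingHom he
    (h.trans (map_zero _).symm)
  have h3 := (MvPolynomial.sumAlgEquiv R κ (Fin l)).injective (h2.trans (map_zero _).symm)
  exact MvPolynomial.rename_injective _ Sum.swap_leftInverse.injective (h3.trans (map_zero _).symm)

theorem indep_field {l : ℕ} (e : Fin l → ℂ) (he : AlgebraicIndependent (algebraicClosure ℚ ℂ) e)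
    (K : IntermediateField ℚ ℂ) (hK : FiniteDimensional ℚ K) : AlgebraicIndependent K e := by
  have hle : K ≤ algebraicClosure ℚ ℂ := by
    intro x hx
    rw [mem_algebraicClosure_iff]
    have h1 : IsIntegral ℚ (⟨x, hx⟩ : K) := Algebra.IsIntegral.isIntegral _
    exact (h1.map (IsScalarTower.toAlgHom ℚ K ℂ)).isAlgebraic
  letI : Algebra K (algebraicClosure ℚ ℂ) := (IntermediateField.inclusion hle).toAlgebra
  haveI : IsScalarTower K (algebraicClosure ℚ ℂ) ℂ := IsScalarTower.of_algebraMap_eq fun _ => rfl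
  exact he.restrictScalars (R := K) (IntermediateField.inclusion hle).injective

end Pool.Agent.R351.GD
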