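import Pool.Agent.R351.GD.P.Tup

/-!
# From windows to tuples: generic counting for relations over number fields with constants
-/

set_option autoImplicit false

open Module

namespace Pool.Agent.R351.GD

open Pool.Agent.Y916.Hil Pool.Agent.Y916.Om

/-- There is a number field `K` of degree at most `δ` and a relation of total degree at most `δ` over `K` between the
numbers `w_j` and `y_i` which does not vanish identically in the `y_i` after the substitution of the `w_j`. -/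
def RelK {Ω : Type} [Field Ω] [CharZero Ω] {υ κ : Type} (δ : ℕ) (w : υ → Ω) (y : κ → Ω) : Prop :=
  ∃ K : IntermediateField ℚ Ω, FiniteDimensional ℚ K ∧ finrank ℚ K ≤ δ ∧ ∃ P : MvPolynomial (υ ⊕ κ) K,
    P.totalDegree ≤ δ ∧ MvPolynomial.aeval (Sum.elim w y) P = 0 ∧
    MvPolynomial.aeval (Sum.elim (fun j => MvPolynomial.C (w j)) MvPolynomial.X) P ≠ (0 : MvPolynomial κ Ω)

section

variable {Ω : Type} [Field Ω] [CharZero Ω]

theorem RelK.mono {υ κ : Type} {δ δ' : ℕ} {w : υ → Ω} {y : κ → Ω} (h : RelK δ w y) (hδ : δ ≤ δ') : RelK δ' w y := by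
  obtain ⟨K, h1, h2, P, h3, h4, h5⟩ := h
  exact ⟨K, h1, h2.trans hδ, P, h3.trans hδ, h4, h5⟩

theorem relK_badW {υ κ : Type} [Fintype κ] {δ : ℕ} {w : υ → Ω} {y : κ → Ω} (h : RelK δ w y) : BadW δ δ δ w y := by
  obtain ⟨K, h1, h2, P, h3, h4, h5⟩ := h
  exact badW_of w y K h1 h2 P h3 h4 h5

theorem badW_relK {υ κ : Type} {d δ e δ' : ℕ} {w : υ → Ω} {y : κ → Ω} (h : BadW d δ e w y) (hd : d ≤ δ')
    (he : e + δ ≤ δ') : RelK δ' w y := by
  classical
  obtain ⟨K, hK, hKd, P, hP0, hPd, hPc, hPv⟩ := h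
  choose p hpd hpv using fun s => lift_pow w e (hPc s)
  set P' : MvPolynomial (υ ⊕ κ) K := ∑ s ∈ P.support, MvPolynomial.rename Sum.inl (p s) *
    MvPolynomial.rename Sum.inr (MvPolynomial.monomial s (1 : K)) with hP'
  have hdeg : P'.totalDegree ≤ e + δ := by
    refine MvPolynomial.totalDegree_finsetSum_le fun s hs => ?_
    refine (MvPolynomial.totalDegree_mul _ _).trans (add_le_add ?_ ?_)
    · exact (MvPolynomial.totalDegree_rename_le _ _).trans (hpd s)
    · refine (MvPolynomial.totalDegree_rename_le _ _).trans ?_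
      refine (MvPolynomial.totalDegree_monomial_le _ _).trans ?_
      exact (MvPolynomial.le_totalDegree hs).trans hPd
  have hval' : ∀ (R : Type) [CommRing R] [Algebra Ω R] (z : κ → R),
      MvPolynomial.aeval (Sum.elim (fun j => algebraMap Ω R (w j)) z) P' = MvPolynomial.aeval z P := by
    intro R _ _ z
    rw [hP', map_sum]
    conv_rhs => rw [MvPolynomial.as_sum P, map_sum]
    refine Finset.sum_congr rfl fun s _ => ?_
    rw [map_mul, MvPolynomial.aeval_rename, MvPolynomial.aeval_rename, MvPolynomial.aeval_monomial,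
      MvPolynomial.aeval_monomial, map_one, one_mul]
    congr 1
    have h1 : (Sum.elim (fun j => algebraMap Ω R (w j)) z ∘ Sum.inl) = fun j => algebraMap Ω R (w j) := rfl
    rw [h1, ← hpv s]
    exact MvPolynomial.aeval_algebraMap_apply R w (p s)
  refine ⟨K, hK, hKd.trans hd, P', hdeg.trans he, ?_, ?_⟩
  · exact (hval' Ω y).trans hPv
  · have h2 := hval' (MvPolynomial κ Ω) MvPolynomial.X
    rw [MvPolynomial.aeval_X_left_apply] at h2
    have h3 : (fun j => algebraMap Ω (MvPolynomial κ Ω) (w j)) = fun j => MvPolynomial.C (w j) := rfl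
    rw [h3] at h2
    rw [h2]
    exact hP0

end

/-- few points in short windows give few points -/
theorem count_win (M E T : ℕ) (hE1 : 1 ≤ E) (hT : 1 ≤ T) (B : Finset ℕ) (hB : ∀ n ∈ B, 1 ≤ n ∧ n ≤ T)
    (hwin : ∀ H n : ℕ, (H + 2) ^ E ≤ n → ∀ S ⊆ B, (∀ s ∈ S, n < s ∧ s ≤ n + H) → S.card ≤ M) :
    (B.card : ℝ) ≤ 8 * (M + 1) * (T : ℝ) ^ (1 - 1 / (2 * E : ℝ)) := by
  classical
  have hE1' : (1 : ℝ) ≤ E := by exact_mod_cast hE1
  have hT1 : (1 : ℝ) ≤ T := by exact_mod_cast hT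
  have hT0 : (0 : ℝ) < T := by linarith
  set a : ℝ := 1 / (2 * E : ℝ) with ha
  have ha0 : 0 < a := by positivity
  have ha1 : a ≤ 1 / 2 := by
    rw [ha]
    apply one_div_le_one_div_of_le (by norm_num)
    linarith
  set y : ℝ := (T : ℝ) ^ a with hy
  have hy1 : 1 ≤ y := Real.one_le_rpow hT1 ha0.le
  set Z : ℝ := (T : ℝ) ^ (1 - a) with hZ
  have hZ0 : 0 < Z := Real.rpow_pos_of_pos hT0 _
  have hZy : Z * y = T := by
    rw [hZ, hy, ← Real.rpow_add hT0]
    rw [sub_add_cancel, Real.rpow_one]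
  have hZs : √(T : ℝ) ≤ Z := by
    rw [Real.sqrt_eq_rpow, hZ]
    exact Real.rpow_le_rpow_of_exponent_le hT1 (by linarith)
  have hsub : B ⊆ Finset.Icc 1 T := fun n hn => Finset.mem_Icc.2 ⟨(hB n hn).1, (hB n hn).2⟩
  have hM0 : (0 : ℝ) ≤ M := Nat.cast_nonneg _
  rcases lt_or_ge y 8 with h8 | h8
  · have h1 := Finset.card_le_card hsub
    rw [Nat.card_Icc, Nat.add_sub_cancel] at h1
    have h2 : (B.card : ℝ) ≤ T := by exact_mod_cast h1
    refine h2.trans ?_
    rw [← hZy]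
    nlinarith
  -- the windows
  set h : ℕ := ⌊y⌋₊ with hh
  have hhy : (h : ℝ) ≤ y := Nat.floor_le (by linarith)
  have hhy2 : y < h + 1 := Nat.lt_floor_add_one y
  have hh8 : 8 ≤ h := Nat.le_floor (by exact_mod_cast h8)
  set s : ℕ := ⌈√(T : ℝ)⌉₊ with hs
  have hs1 : √(T : ℝ) ≤ s := Nat.le_ceil _
  have hs2 : (s : ℝ) < √(T : ℝ) + 1 := Nat.ceil_lt_add_one (Real.sqrt_nonneg _)
  have hhE : (h : ℝ) ^ E ≤ √(T : ℝ) := by
    calc (h : ℝ) ^ E ≤ y ^ E := pow_le_pow_left₀ (Nat.cast_nonneg _) hhy _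
      _ = √(T : ℝ) := by
        rw [hy, ← Real.rpow_natCast, ← Real.rpow_mul hT0.le, Real.sqrt_eq_rpow]
        congr 1
        rw [ha]
        field_simp
  have hhs : h ^ E ≤ s := by
    have : ((h ^ E : ℕ) : ℝ) ≤ s := by push_cast; linarith
    exact_mod_cast this
  set H : ℕ := h - 2 with hH
  have hH1 : 1 ≤ H := by omega
  have hH2 : H + 2 = h := by omega
  set B₀ := B.filter fun n => n ≤ s with hB₀
  set B₁ := B.filter fun n => ¬ n ≤ s with hB₁
  have hsplit : B.card = B₀.card + B₁.card := by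
    rw [hB₀, hB₁, Finset.card_filter_add_card_filter_not]
  have h0 : B₀.card ≤ s := by
    have h1 : B₀ ⊆ Finset.Icc 1 s := fun n hn => by
      rw [hB₀, Finset.mem_filter] at hn
      exact Finset.mem_Icc.2 ⟨(hB n hn.1).1, hn.2⟩
    have h2 := Finset.card_le_card h1
    rwa [Nat.card_Icc, Nat.add_sub_cancel] at h2
  have h1 : B₁.card ≤ M * (T / H + 1) := by
    have hmaps : ∀ n ∈ B₁, (n - s - 1) / H ∈ Finset.range (T / H + 1) := by
      intro n hn
      rw [hB₁, Finset.mem_filter] at hn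
      have := (hB n hn.1).2
      rw [Finset.mem_range, Nat.lt_succ_iff]
      exact Nat.div_le_div_right (by omega)
    have h2 := Finset.card_le_mul_card_image_of_maps_to hmaps M fun t _ => by
      refine hwin H (s + H * t) (by rw [hH2]; omega) _ ?_ fun n hn => ?_
      · exact (Finset.filter_subset _ _).trans (Finset.filter_subset _ _)
      rw [Finset.mem_filter, hB₁, Finset.mem_filter] at hn
      obtain ⟨⟨hnB, hns⟩, hnt⟩ := hn
      have h3 := Nat.div_add_mod (n - s - 1) H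
      have h4 := Nat.mod_lt (n - s - 1) (by omega : H > 0)
      rw [hnt] at h3
      exact ⟨by omega, by omega⟩
    rwa [Finset.card_range] at h2
  have hHy : y ≤ 2 * H := by
    have h2 : (H : ℝ) = h - 2 := by rw [hH]; push_cast [show 2 ≤ h by omega]; ring
    have h3 : (8 : ℝ) ≤ h := by exact_mod_cast hh8
    rw [h2]
    linarith
  have hTH : ((T / H : ℕ) : ℝ) ≤ 2 * Z := by
    refine Nat.cast_div_le.trans ?_
    have hH0 : (0 : ℝ) < H := by exact_mod_cast hH1
    rw [div_le_iff₀ hH0, ← hZy]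
    nlinarith
  have hZ1 : 1 ≤ Z := by
    have : 1 ≤ √(T : ℝ) := Real.one_le_sqrt.2 hT1
    linarith
  have h1' : (B₁.card : ℝ) ≤ M * (((T / H : ℕ) : ℝ) + 1) := by exact_mod_cast h1
  have h0' : (B₀.card : ℝ) ≤ s := by exact_mod_cast h0
  have h2' : (M : ℝ) * (((T / H : ℕ) : ℝ) + 1) ≤ M * (3 * Z) :=
    mul_le_mul_of_nonneg_left (by linarith) hM0
  rw [hsplit]
  push_cast
  nlinarith

open Classical in
/-- tuples -/
theorem tup_badS {Ω : Type} [Field Ω] [CharZero Ω] {σ : Type} [Fintype σ] (x : ℕ → σ → Ω) (δ T Z Q e' : ℕ)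
    (A : Finset ℕ) (hA : A.card ≤ T)
    (H : ∀ w' : Fin Q → Ω, (A.filter fun n => BadW δ δ e' w' (x n)).card ≤ Z) (k : ℕ) :
    ∀ (e : ℕ) (υ : Type) [Fintype υ] (w : υ → Ω), Fintype.card υ + k * Fintype.card σ ≤ Q → e + k * δ ≤ e' →
    ((Fintype.piFinset fun _ : Fin k => A).filter fun t =>
      BadW δ δ e w (fun p : Fin k × σ => x (t p.1) p.2)).card ≤ k * Z * T ^ (k - 1) := by
  induction k with
  | zero =>
    intro e υ _ w _ _
    rw [Finset.filter_false_of_mem, Finset.card_empty]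
    · exact Nat.zero_le _
    · rintro g _ ⟨K, -, -, P, hP0, -, -, hPv⟩
      obtain ⟨a, rfl⟩ : ∃ a, P = MvPolynomial.C a := ⟨_, MvPolynomial.eq_C_of_isEmpty P⟩
      rw [MvPolynomial.aeval_C] at hPv
      apply hP0
      have : a = 0 := hPv
      rw [this, map_zero]
  | succ k ih =>
    intro e υ _ w hυ he
    have hek : e + k * δ ≤ e' := by
      have : (k + 1) * δ = k * δ + δ := by ring
      omega
    have heδ : e + δ ≤ e' := by
      have : (k + 1) * δ = k * δ + δ := by ring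
      have h0 : 0 ≤ k * δ := Nat.zero_le _
      omega
    have hυk : Fintype.card υ + k * Fintype.card σ ≤ Q := by
      have : (k + 1) * Fintype.card σ = k * Fintype.card σ + Fintype.card σ := by ring
      omega
    set y : (Fin k → ℕ) → Fin k × σ → Ω := fun t p => x (t p.1) p.2 with hy
    set bad₁ := (Fintype.piFinset fun _ : Fin k => A).filter fun t => BadW δ δ e w (y t) with hbad₁
    set bad₂ : (Fin k → ℕ) → Finset ℕ := fun t => A.filter fun n =>
      BadW δ δ (e + δ) (Sum.elim w (y t)) (x n) with hbad₂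
    have hsub : ((Fintype.piFinset fun _ : Fin (k + 1) => A).filter fun t =>
        BadW δ δ e w (fun p : Fin (k + 1) × σ => x (t p.1) p.2)) ⊆
        ((A ×ˢ bad₁).image fun p => (Fin.cons p.1 p.2 : Fin (k + 1) → ℕ)) ∪
        (((Fintype.piFinset fun _ : Fin k => A).sigma bad₂).image
          fun p => (Fin.cons p.2 p.1 : Fin (k + 1) → ℕ)) := by
      intro t ht
      obtain ⟨ht1, ht2⟩ := Finset.mem_filter.1 ht
      rw [Fintype.mem_piFinset] at ht1
      set en : Fin k × σ ⊕ σ ≃ Fin (k + 1) × σ :=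
        { toFun := Sum.elim (fun p => (p.1.succ, p.2)) (fun s => (0, s))
          invFun := fun p => Fin.cases (Sum.inr p.2) (fun i => Sum.inl (i, p.2)) p.1
          left_inv := by rintro (⟨i, s⟩ | s) <;> simp
          right_inv := by
            rintro ⟨i, s⟩
            refine Fin.cases ?_ (fun i => ?_) i <;> simp } with hen
      have h4 : (fun j => x (t (en j).1) (en j).2) = Sum.elim (y fun i => t i.succ) (x (t 0)) := by
        funext j
        rcases j with ⟨i, s⟩ | s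
        · rfl
        · rfl
      have h3 : BadW δ δ e w (Sum.elim (y fun i => t i.succ) (x (t 0))) := by
        rw [← h4]
        exact BadW.reindex en ht2
      have htail : (fun i => t i.succ) ∈ Fintype.piFinset fun _ : Fin k => A := by
        rw [Fintype.mem_piFinset]
        exact fun i => ht1 i.succ
      rcases h3.split with h5 | h5
      · refine Finset.mem_union_left _ (Finset.mem_image.2 ⟨(t 0, fun i => t i.succ), ?_, ?_⟩)
        · exact Finset.mem_product.2 ⟨ht1 0, Finset.mem_filter.2 ⟨htail, h5⟩⟩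
        · funext i
          refine Fin.cases ?_ (fun i => ?_) i <;> simp
      · refine Finset.mem_union_right _ (Finset.mem_image.2 ⟨⟨fun i => t i.succ, t 0⟩, ?_, ?_⟩)
        · exact Finset.mem_sigma.2 ⟨htail, Finset.mem_filter.2 ⟨ht1 0, h5⟩⟩
        · funext i
          refine Fin.cases ?_ (fun i => ?_) i <;> simp
    have hb1 : bad₁.card ≤ k * Z * T ^ (k - 1) := ih e υ w hυk hek
    have hb2 : ∀ t, (bad₂ t).card ≤ Z := by
      intro t
      obtain ⟨w', hw'⟩ := exists_fin (Sum.elim w (y t)) (Q := Q) (by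
        rw [Fintype.card_sum, Fintype.card_prod, Fintype.card_fin]
        exact hυk)
      refine (Finset.card_le_card fun n hn => ?_).trans (H w')
      obtain ⟨hn1, hn2⟩ := Finset.mem_filter.1 hn
      exact Finset.mem_filter.2 ⟨hn1, BadW.mono_e (hn2.mono hw') heδ⟩
    refine (Finset.card_le_card hsub).trans ((Finset.card_union_le _ _).trans
      ((add_le_add Finset.card_image_le Finset.card_image_le).trans ?_))
    rw [Finset.card_product, Finset.card_sigma]
    have h6 : ∑ t ∈ Fintype.piFinset (fun _ : Fin k => A), (bad₂ t).card ≤ T ^ k * Z := by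
      refine (Finset.sum_le_card_nsmul _ _ _ fun g _ => hb2 g).trans ?_
      rw [smul_eq_mul, Fintype.card_piFinset]
      simp only [Finset.prod_const, Finset.card_univ, Fintype.card_fin]
      exact Nat.mul_le_mul_right _ (Nat.pow_le_pow_left hA _)
    have h7 : A.card * bad₁.card ≤ k * Z * T ^ k := by
      rcases Nat.eq_zero_or_pos k with rfl | hk
      · have h8 : bad₁.card = 0 := by
          have h9 := hb1
          simp only [zero_mul, Nat.le_zero] at h9
          exact h9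
        rw [h8, mul_zero]
        exact Nat.zero_le _
      · calc A.card * bad₁.card ≤ T * (k * Z * T ^ (k - 1)) := Nat.mul_le_mul hA hb1
          _ = k * Z * (T ^ (k - 1) * T) := by ring
          _ = _ := by rw [← pow_succ, Nat.sub_add_cancel hk]
    refine (add_le_add h7 h6).trans (le_of_eq ?_)
    rw [Nat.add_sub_cancel]
    ring

open Classical in
/-- **From windows to tuples** -/
theorem gen_tuples {Ω : Type} [Field Ω] [CharZero Ω] {σ : Type} [Fintype σ] (Θ : Type) (x : Θ → ℕ → σ → Ω)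
    (n₀ k q c₀ : ℕ)
    (hwin : ∀ Q : ℕ, ∃ E : ℕ → ℕ, PB E ∧ ∀ (θ : Θ) (δ : ℕ) (w : Fin Q → Ω) (H n : ℕ), (H + 2) ^ E δ ≤ n →
      ∀ S : Finset ℕ, (∀ s ∈ S, n₀ ≤ s ∧ n < s ∧ s ≤ n + H ∧ RelK δ w (x θ s)) → S.card ≤ Q + c₀) :
    ∃ C : ℕ, ∀ (θ : Θ) (δ : ℕ) (w : Fin q → Ω) (T : ℕ), 1 ≤ T →
      (((Fintype.piFinset fun _ : Fin k => (Finset.Icc 1 T).filter fun n => n₀ ≤ n).filter fun t =>
        RelK δ w (fun p : Fin k × σ => x θ (t p.1) p.2)).card : ℝ) ≤
      C * (T : ℝ) ^ ((k : ℝ) - 1 / ((δ : ℝ) + 2) ^ C) := by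
  set Q := q + k * Fintype.card σ with hQ
  obtain ⟨E₀, hE₀p, hE₀⟩ := hwin Q
  set E : ℕ → ℕ := fun δ => E₀ ((k + 2) * δ) + 1 with hEdef
  have hEp : PB E := (hE₀p.comp ((PB.const (k + 2)).mul PB.id)).add (PB.const 1)
  obtain ⟨c, hc⟩ := hEp
  refine ⟨8 * (Q + c₀ + 1) * k + (c + 1), fun θ δ w T hT => ?_⟩
  set C := 8 * (Q + c₀ + 1) * k + (c + 1) with hC
  have hT1 : (1 : ℝ) ≤ T := by exact_mod_cast hT
  have hT0 : (0 : ℝ) < T := by linarith
  have hE1 : 1 ≤ E δ := Nat.le_add_left _ _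
  set Z : ℝ := 8 * ((Q + c₀ : ℕ) + 1) * (T : ℝ) ^ (1 - 1 / (2 * E δ : ℝ)) with hZ
  have hZ0 : 0 ≤ Z := by positivity
  set A : Finset ℕ := (Finset.Icc 1 T).filter fun n => n₀ ≤ n with hA
  have hAT : A.card ≤ T := by
    have h1 : A.card ≤ (Finset.Icc 1 T).card := Finset.card_filter_le _ _
    rwa [Nat.card_Icc, Nat.add_sub_cancel] at h1
  have h1 := tup_badS (x θ) δ T ⌊Z⌋₊ Q ((k + 1) * δ) A hAT (fun w' => by
      apply Nat.le_floor
      refine count_win (Q + c₀) (E δ) T hE1 hT _ (fun n hn => ?_) fun H n hn S hS hSb => ?_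
      · exact Finset.mem_Icc.1 (Finset.mem_filter.1 (Finset.mem_filter.1 hn).1).1
      · refine hE₀ θ ((k + 2) * δ) w' H n ((Nat.pow_le_pow_right (by omega) (Nat.le_succ _)).trans hn) S fun s hs => ?_
        obtain ⟨h2, h3⟩ := Finset.mem_filter.1 (hS hs)
        refine ⟨(Finset.mem_filter.1 h2).2, (hSb s hs).1, (hSb s hs).2, badW_relK h3 ?_ (le_of_eq (by ring))⟩
        exact Nat.le_mul_of_pos_left δ (by omega)) k δ (Fin q) w
    (by rw [Fintype.card_fin]) (le_of_eq (by ring))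
  have h2 : (((Fintype.piFinset fun _ : Fin k => A).filter fun t =>
        RelK δ w (fun p : Fin k × σ => x θ (t p.1) p.2)).card : ℝ) ≤ k * ⌊Z⌋₊ * (T : ℝ) ^ (k - 1) := by
    have h3 : ((Fintype.piFinset fun _ : Fin k => A).filter fun t =>
        RelK δ w (fun p : Fin k × σ => x θ (t p.1) p.2)).card ≤ k * ⌊Z⌋₊ * T ^ (k - 1) := by
      refine (Finset.card_le_card fun t ht => ?_).trans h1
      obtain ⟨ht1, ht2⟩ := Finset.mem_filter.1 ht
      exact Finset.mem_filter.2 ⟨ht1, relK_badW ht2⟩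
    exact_mod_cast h3
  refine h2.trans ?_
  rcases Nat.eq_zero_or_pos k with hk | hk
  · subst hk
    simp only [Nat.cast_zero, zero_mul]
    positivity
  have h3 : (⌊Z⌋₊ : ℝ) ≤ Z := Nat.floor_le hZ0
  have hEp : (2 * E δ : ℝ) ≤ ((δ : ℝ) + 2) ^ C := by
    have h4 : 2 * E δ ≤ (δ + 2) ^ (c + 1) := by
      rw [pow_succ, mul_comm 2]
      exact Nat.mul_le_mul (hc δ) (by omega)
    have h5 : (δ + 2) ^ (c + 1) ≤ (δ + 2) ^ C := Nat.pow_le_pow_right (by omega) (by omega)
    exact_mod_cast h4.trans h5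
  have hE0 : (0 : ℝ) < 2 * E δ := by
    have : (1 : ℝ) ≤ E δ := by exact_mod_cast hE1
    linarith
  have h6 : 1 / ((δ : ℝ) + 2) ^ C ≤ 1 / (2 * E δ : ℝ) := one_div_le_one_div_of_le hE0 hEp
  calc (k : ℝ) * ⌊Z⌋₊ * (T : ℝ) ^ (k - 1) ≤ k * Z * (T : ℝ) ^ (k - 1) := by
        gcongr
    _ = 8 * ((Q + c₀ : ℕ) + 1) * k * ((T : ℝ) ^ (1 - 1 / (2 * E δ : ℝ)) * (T : ℝ) ^ (k - 1)) := by
        rw [hZ]; ring
    _ = 8 * ((Q + c₀ : ℕ) + 1) * k * (T : ℝ) ^ ((k : ℝ) - 1 / (2 * E δ : ℝ)) := by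
        rw [← Real.rpow_natCast, ← Real.rpow_add hT0]
        congr 2
        rw [Nat.cast_sub hk]
        push_cast
        ring
    _ ≤ C * (T : ℝ) ^ ((k : ℝ) - 1 / ((δ : ℝ) + 2) ^ C) := by
        refine mul_le_mul ?_ (Real.rpow_le_rpow_of_exponent_le hT1 (by linarith)) (by positivity)
          (Nat.cast_nonneg _)
        rw [hC]
        push_cast
        have : (0 : ℝ) ≤ c := Nat.cast_nonneg _
        linarith

end Pool.Agent.R351.GD
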