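import Pool.Agent.Y921.PX.Fin
import Pool.Agent.R351.GD.P.All

/-!
# Strong four exponentials from the absence of relations
-/

set_option autoImplicit false

open Module

namespace Pool.Agent.R351.GD

open Pool.Agent.Y921.FE (Good good_of D) 
open Pool.Agent.Y921.PX
open Pool.Agent.Y916.Om

theorem good_of_bad {Ω : Type} [Field Ω] [CharZero Ω] {q k δ : ℕ} (w : Fin q → Ω) (l : Fin k → Ω)
    (h : ¬ BadW (δ + 2) (δ + 2) (δ + 2) w l) (K : IntermediateField ℚ Ω) (hK : FiniteDimensional ℚ K)
    (hKd : finrank ℚ K ≤ δ) : Good (Submodule.span K (Set.range w)) l := by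
  classical
  have hfin : Module.Finite K (Submodule.span K (Set.range w)) := Module.Finite.span_of_finite K (Set.finite_range w)
  refine good_of _ _ fun w0 c hw0 h0 X => ?_
  have h2 : ∀ i j, ∃ a : Fin q → K, ∑ p, a p • w p = w0 i j := fun i j =>
    (Submodule.mem_span_range_iff_exists_fun K).1 (hw0 i j)
  choose a ha using h2
  have e0 : w0 = fun i j => ∑ q, a i j q • w q := by
    funext i j
    exact (ha i j).symm
  rw [e0] at h0 ⊢
  apply DW_aeval2
  by_contra hne
  refine h (badW_of w l K hK (hKd.trans (by omega)) (DW a c) ((DW_deg a c).trans (by omega)) ?_ hne)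
  rw [DW_aeval]
  exact h0

end Pool.Agent.R351.GD
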